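import Mathlib
import Pool.Agent.TH779.Ord.Eng

/-! The averages of the coloured Maynard-Tao sieve with the optimal constant (adapted from
`Pool.Agent.TH779.Ord.Eng`). -/

set_option autoImplicit false

namespace Pool.Agent.X37.RW

open Finset Filter Topology
open Pool.Agent.TH779.Ord
open Pool.Agent.H362R2.CM
open Pool.Agent.H410R2 hiding GP GP_prof GP_cut_some GP_cut_none GP_lip gg_pos gg_le_one gg_anti ee_bound ee_nonneg gg_lip LB_gg LB_ee Sums exists_sums yx wx wxi Br sum_GP_none sum_GP_some sum_GP_some_ee sum_GP_some_one sum_GPr_none sum_GPr_some S1_final QI_final S2_final w_abs_le wmax gg ee I1 I2 IE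
open Pool.Agent.H361R2.GM

/-- the strict inequality at `ε = 0` -/
theorem base_th (T : ℕ) (lam θ : ℝ) (hT1 : 1 ≤ T) (hlam : 1 / 2 ≤ lam) (hθ0 : 0 < θ) (hθ : θ < 1 / 16) :
    ∃ (K : ℕ) (Q : SPar) (ρ : ℝ), 2 ≤ K ∧ 0 < ρ ∧
    ρ ≤ 1 / 16 ∧ 0 < Q.I1 ∧ 0 < Q.I2 ∧ 0 < Br Q (T * K) 0 ∧
    (T * θ / lam * (1 + 0) + 0) * Ac Q (T * K) 0 <
      T * (K * (ρ * βc Q (T * K) 0) - lam * ((K : ℝ) ^ 2 * γc Q (T * K) ρ 0)) := by
  have hT : (1 : ℝ) ≤ T := by exact_mod_cast hT1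
  obtain ⟨δ, hδ⟩ : ∃ δ : ℝ, δ = 1 / 16 - θ := ⟨_, rfl⟩
  have hδ0 : 0 < δ := by rw [hδ]; linarith
  set s : ℝ := max 7 (2 - Real.log (4 * δ)) with hs
  have hs7 : 7 ≤ s := le_max_left _ _
  have hs1 : 1 ≤ s := by linarith
  obtain ⟨V, hV⟩ : ∃ V : ℝ, V = 1000 + (2 * s + 4) + 1 / δ := ⟨_, rfl⟩
  have hδi : 0 < 1 / δ := by positivity
  have hV1 : 1000 ≤ V := by rw [hV]; linarith
  have hVs : 2 * s + 4 ≤ V := by rw [hV]; linarith
  have hVδ : 1 / δ ≤ V := by rw [hV]; linarith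
  have hV0 : 0 < V := by linarith
  set A : ℝ := V * T with hA
  have hAV : V ≤ A := by rw [hA]; nlinarith
  have hAs : 2 * s + 4 ≤ A := by linarith
  have hA4 : 4 ≤ A := by linarith
  obtain ⟨K', hK'⟩ := exists_nat_ge (100 * s ^ 2 * Real.exp A)
  set K : ℕ := K' + 2 with hK
  have hKR : 100 * s ^ 2 * Real.exp A ≤ (K : ℝ) := by
    rw [hK]; push_cast; linarith
  have hK2 : 2 ≤ K := by omega
  have hK2R : (2 : ℝ) ≤ K := by exact_mod_cast hK2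
  have hkK : (K : ℝ) ≤ ((T * K : ℕ) : ℝ) := by
    push_cast
    nlinarith
  obtain ⟨Q, hQG, hQc, hQl⟩ := exists_parS A s hA4 hs1 (T * K) (hKR.trans hkK)
  obtain ⟨hI1, hI2, hI2le, hBl, hBu⟩ := Br_zero_bounds A s hs1 hAs (T * K) (hKR.trans hkK) Q hQG hQc hQl
  set k : ℕ := T * K with hk
  have hkcast : (k : ℝ) = T * K := by rw [hk]; push_cast; ring
  have hk2 : 2 ≤ k := by
    rw [hk]
    calc 2 ≤ K := hK2
      _ ≤ T * K := Nat.le_mul_of_pos_left K hT1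
  have hK0 : (0 : ℝ) < K := by linarith
  have hk0 : (0 : ℝ) < k := by rw [hkcast]; positivity
  have hI1pos : 0 < Q.I1 := by rw [hI1]; positivity
  set v : ℝ := K * Q.I1 ^ 2 / Q.I2 with hv
  have hvV : V ≤ v := by
    rw [hv, le_div_iff₀ hI2, hI1]
    calc V * Q.I2 ≤ V * (1 / (A * k)) := by gcongr
      _ = 1 / (T * k) := by rw [hA]; field_simp
      _ = K * (1 / (k : ℝ)) ^ 2 := by rw [hkcast]; field_simp
  have hv1 : 1000 ≤ v := by linarith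
  have hv0 : 0 < v := by linarith
  have hl0 : 0 < lam := by linarith
  set ρ : ℝ := 1 / (8 * lam * v) with hρ
  have hρ0 : 0 < ρ := by rw [hρ]; positivity
  have hρ4 : ρ ≤ 1 / (4 * v) := by
    rw [hρ]
    apply one_div_le_one_div_of_le (by positivity)
    nlinarith
  have hρ1 : ρ ≤ 1 / 4000 := by
    refine hρ4.trans ?_
    apply one_div_le_one_div_of_le (by norm_num)
    linarith
  have hρδ : ρ ≤ δ / 4 := by
    refine hρ4.trans ?_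
    have h1 : 1 / (4 * v) ≤ 1 / (4 * (1 / δ)) := by
      apply one_div_le_one_div_of_le (by positivity)
      linarith
    refine h1.trans (le_of_eq ?_)
    field_simp
  have hρv : ρ * v = 1 / (8 * lam) := by
    rw [hρ]; field_simp
  set η : ℝ := Real.exp (-s + 2) with hη
  have hη1 : η ≤ 4 * δ := by
    rw [hη]
    have h1 : -s + 2 ≤ Real.log (4 * δ) := by
      have := le_max_right 7 (2 - Real.log (4 * δ))
      rw [← hs] at this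
      linarith
    calc Real.exp (-s + 2) ≤ Real.exp (Real.log (4 * δ)) := Real.exp_le_exp.2 h1
      _ = 4 * δ := Real.exp_log (by positivity)
  have hη2 : η ≤ 1 / 4 := by
    have : δ ≤ 1 / 16 := by rw [hδ]; linarith
    linarith
  set P : ℝ := (1 / 3) * Q.I2 ^ (k - 2) with hP
  have hP0 : 0 < P := by positivity
  have hpow1 : (1 / 3) * Q.I2 ^ (k - 1) = P * Q.I2 := by
    have : k - 1 = (k - 2) + 1 := by omega
    rw [this, pow_succ, hP]; ring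
  have hpow2 : (1 / 3) * Q.I2 ^ k = P * Q.I2 ^ 2 := by
    have : k = (k - 2) + 2 := by omega
    rw [hP, mul_assoc, ← pow_add, ← this]
  set b : ℝ := Br Q k 0 / (P * Q.I2) with hb
  have hPI : 0 < P * Q.I2 := by positivity
  have hBb : Br Q k 0 = b * (P * Q.I2) := by
    rw [hb]; field_simp
  rw [hpow1] at hBl hBu
  have hb1 : 1 - η ≤ b := by
    rw [hb, le_div_iff₀ hPI]; exact hBl
  have hb0 : 0 < b := by linarith
  have hBpos : 0 < Br Q k 0 := by rw [hBb]; positivity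
  refine ⟨K, Q, ρ, hK2, hρ0, by linarith, hI1pos, hI2, hBpos, ?_⟩
  have hAc : Ac Q k 0 = P * Q.I2 ^ 2 := by
    unfold Ac
    rw [← hpow2]; simp
  have hβ : βc Q k 0 = Q.I1 ^ 2 * (b * (P * Q.I2)) := by
    unfold βc
    rw [hBb]; simp
  have hγ : γc Q k ρ 0 = ρ ^ 2 / (1 / 4 - 2 * ρ) * (Q.I1 ^ 4 * P) := by
    unfold γc
    rw [hP]; simp
  rw [hAc, hβ, hγ]
  have hq0 : 0 < 1 / 4 - 2 * ρ := by linarith
  have e1 : K * (ρ * (Q.I1 ^ 2 * (b * (P * Q.I2)))) = P * Q.I2 ^ 2 * (ρ * v * b) := by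
    rw [hv]; field_simp
  have e2 : (K : ℝ) ^ 2 * (ρ ^ 2 / (1 / 4 - 2 * ρ) * (Q.I1 ^ 4 * P)) =
      P * Q.I2 ^ 2 * ((ρ * v) ^ 2 / (1 / 4 - 2 * ρ)) := by
    rw [hv]; field_simp
  rw [e1, e2, hρv]
  have hPI2 : 0 < P * Q.I2 ^ 2 := by positivity
  have e3 : (T : ℝ) * (P * Q.I2 ^ 2 * (1 / (8 * lam) * b) -
      lam * (P * Q.I2 ^ 2 * ((1 / (8 * lam)) ^ 2 / (1 / 4 - 2 * ρ)))) =
      (T * (1 / (8 * lam) * b - lam * ((1 / (8 * lam)) ^ 2 / (1 / 4 - 2 * ρ)))) *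
        (P * Q.I2 ^ 2) := by ring
  rw [e3]
  apply mul_lt_mul_of_pos_right _ hPI2
  have h5 : (1 / (8 * lam)) ^ 2 / (1 / 4 - 2 * ρ) ≤ (1 / (8 * lam)) ^ 2 * (4 + 64 * ρ) := by
    rw [div_le_iff₀ hq0]
    have h6 : 1 ≤ (4 + 64 * ρ) * (1 / 4 - 2 * ρ) := by nlinarith
    have h7 : 0 ≤ (1 / (8 * lam)) ^ 2 := sq_nonneg _
    calc (1 / (8 * lam)) ^ 2 = (1 / (8 * lam)) ^ 2 * 1 := (mul_one _).symm
      _ ≤ (1 / (8 * lam)) ^ 2 * ((4 + 64 * ρ) * (1 / 4 - 2 * ρ)) := mul_le_mul_of_nonneg_left h6 h7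
      _ = _ := by ring
  have h8 : lam * ((1 / (8 * lam)) ^ 2 / (1 / 4 - 2 * ρ)) ≤ (1 / 16 + ρ) * (1 / lam) := by
    calc lam * ((1 / (8 * lam)) ^ 2 / (1 / 4 - 2 * ρ)) ≤
        lam * ((1 / (8 * lam)) ^ 2 * (4 + 64 * ρ)) := by gcongr
      _ = (1 / 16 + ρ) * (1 / lam) := by field_simp; ring
  have h9 : (1 - η) / 8 * (1 / lam) ≤ 1 / (8 * lam) * b := by
    calc (1 - η) / 8 * (1 / lam) = 1 / (8 * lam) * (1 - η) := by field_simp
      _ ≤ _ := by gcongr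
  have hlinv : 0 < 1 / lam := by positivity
  have h10 : (T : ℝ) * θ / lam * (1 + 0) + 0 = T * (θ * (1 / lam)) := by
    field_simp; ring
  rw [h10]
  apply mul_lt_mul_of_pos_left _ (by linarith)
  have h11 : θ < (1 - η) / 8 - (1 / 16 + ρ) := by
    have : θ = 1 / 16 - δ := by rw [hδ]; ring
    rw [this]
    linarith
  have h12 := mul_lt_mul_of_pos_right h11 hlinv
  linarith

theorem num_th (T : ℕ) (lam θ : ℝ) (hT1 : 1 ≤ T) (hlam : 1 / 2 ≤ lam) (hθ0 : 0 < θ) (hθ : θ < 1 / 16) :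
    ∃ (K : ℕ) (Q : SPar) (ρ ε : ℝ), 2 ≤ K ∧ 0 < ρ ∧
    ρ ≤ 1 / 16 ∧ 0 < ε ∧ ε < 1 / 3 ∧ ε < Q.I1 ∧ ε < Q.I2 ∧ 0 < Br Q (T * K) ε ∧
    (T * θ / lam * (1 + ε) + ε) * Ac Q (T * K) ε <
      T * (K * (ρ * βc Q (T * K) ε) - lam * ((K : ℝ) ^ 2 * γc Q (T * K) ρ ε)) := by
  obtain ⟨K, Q, ρ, hK, hρ, hρ1, hI1, hI2, hB, hb⟩ := base_th T lam θ hT1 hlam hθ0 hθ
  have hcB : Continuous fun ε : ℝ => Br Q (T * K) ε := by
    unfold Br
    fun_prop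
  have hcβ : Continuous fun ε : ℝ => βc Q (T * K) ε := by
    unfold βc
    fun_prop
  have hcA : Continuous fun ε : ℝ => Ac Q (T * K) ε := by
    unfold Ac
    fun_prop
  have hcγ : ContinuousAt (fun ε : ℝ => γc Q (T * K) ρ ε) 0 := by
    unfold γc
    have h1 : ContinuousAt (fun ε : ℝ => (1 + ε) ^ 8 / (1 - ε) ^ 4) 0 := by
      apply ContinuousAt.div (by fun_prop) (by fun_prop)
      norm_num
    have h2 : ContinuousAt (fun ε : ℝ =>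
        (Q.I1 + ε) ^ 4 * ((1 / 3 + ε) * (Q.I2 + ε) ^ (T * K - 2))) 0 := by fun_prop
    exact (continuousAt_const.mul h1).mul h2
  have hc1 : ContinuousAt (fun ε : ℝ => (T * θ / lam * (1 + ε) + ε) * Ac Q (T * K) ε) 0 :=
    ContinuousAt.mul (by fun_prop) hcA.continuousAt
  have hc2 : ContinuousAt (fun ε : ℝ => (T : ℝ) * (K * (ρ * βc Q (T * K) ε) -
      lam * ((K : ℝ) ^ 2 * γc Q (T * K) ρ ε))) 0 :=
    continuousAt_const.mul
      ((continuousAt_const.mul (continuousAt_const.mul hcβ.continuousAt)).sub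
        (continuousAt_const.mul (continuousAt_const.mul hcγ)))
  have hev : ∀ᶠ ε : ℝ in 𝓝 0, (T * θ / lam * (1 + ε) + ε) * Ac Q (T * K) ε <
      (T : ℝ) * (K * (ρ * βc Q (T * K) ε) - lam * ((K : ℝ) ^ 2 * γc Q (T * K) ρ ε)) :=
    hc1.tendsto.eventually_lt hc2.tendsto hb
  have hev1 : ∀ᶠ ε : ℝ in 𝓝 0, ε < 1 / 3 := gt_mem_nhds (by norm_num)
  have hev2 : ∀ᶠ ε : ℝ in 𝓝 0, ε < Q.I1 := gt_mem_nhds hI1
  have hev3 : ∀ᶠ ε : ℝ in 𝓝 0, ε < Q.I2 := gt_mem_nhds hI2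
  have hev4 : ∀ᶠ ε : ℝ in 𝓝 0, 0 < Br Q (T * K) ε := by
    have := hcB.tendsto (0 : ℝ)
    exact this.eventually (lt_mem_nhds hB)
  have hall := ((hev.and (hev1.and (hev2.and (hev3.and hev4)))).filter_mono
    (nhdsWithin_le_nhds (s := Set.Ioi (0 : ℝ)))).and (self_mem_nhdsWithin (s := Set.Ioi (0 : ℝ)))
  obtain ⟨ε, ⟨h1, h2, h3, h4, h5⟩, h6⟩ := hall.exists
  exact ⟨K, Q, ρ, ε, hK, hρ, hρ1, h6, h2, h3, h4, h5, h1⟩

end Pool.Agent.X37.RW
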