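import Mathlib
import Pool.Agent.X37.RW.Eng
import Pool.Agent.TH779.Ord.Core

/-! Coloured Maynard-Tao theorem: the average of the number of primes minus a multiple of the number of pairs in
the same class, with the optimal constant. Adapted from `Pool.Agent.TH779.Ord.Core`. -/

set_option autoImplicit false

namespace Pool.Agent.X37.RW

open Finset Filter Topology
open Pool.Agent.TH779.Ord
open Pool.Agent.H362R2.CM
open Pool.Agent.H410R2 hiding GP GP_prof GP_cut_some GP_cut_none GP_lip gg_pos gg_le_one gg_anti ee_bound ee_nonneg gg_lip LB_gg LB_ee Sums exists_sums yx wx wxi Br sum_GP_none sum_GP_some sum_GP_some_ee sum_GP_some_one sum_GPr_none sum_GPr_some S1_final QI_final S2_final w_abs_le wmax gg ee I1 I2 IE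
open Pool.Agent.H361R2.GM

theorem core_th_of (hT1 : S1Upper) (hT2 : S2Approx) (hT3 : S2Model) (hBV : BVAP) (hPNT : PNTLog)
    (hPB : ProdBound) (hOB : OmegaBound) (hOD : OneDim) (hTail : TailBound) (hAri : AriSetup)
    (T : ℕ) (lam θ : ℝ) (hTp : 1 ≤ T) (hlam : 1 / 2 ≤ lam) (hθ0 : 0 < θ) (hθ : θ < 1 / 16) :
    ∃ K : ℕ, 2 ≤ K ∧ ∀ (a b : Fin (T * K) → ℕ) (cl : Fin (T * K) → Fin T),
      (∀ g, (univ.filter (fun i => cl i = g)).card = K) → (∀ i, 1 ≤ a i) → (∀ i, 1 ≤ b i) →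
      (∀ i j, i ≠ j → a i * b j ≠ a j * b i) →
      (∀ p : ℕ, p.Prime → ∃ n : ℕ, ¬ p ∣ n ∧ ∀ i, ¬ p ∣ a i * n + b i) →
      ∀ N0 : ℕ, ∃ n, N0 < n ∧ (T : ℝ) * θ / lam ≤
        ∑ g : Fin T, fn lam (univ.filter (fun i => cl i = g ∧ (a i * n + b i).Prime)).card := by
  classical
  obtain ⟨K, Q, ρ, ε, hK, hρ, hρ1, hε, hε1, hI1, hI2, hBr, hnum⟩ := num_th T lam θ hTp hlam hθ0 hθ
  refine ⟨K, hK, ?_⟩
  set k := T * K with hk
  intro a b cl hcl ha hb hnp hadm N0
  by_contra hcon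
  set M : ℝ := (T : ℝ) * θ / lam with hMdef
  set Φ : ℕ → ℝ := fun n =>
    ∑ g : Fin T, fn lam (univ.filter (fun i => cl i = g ∧ (a i * n + b i).Prime)).card with hΦ
  have hM : ∀ n, N0 < n → Φ n ≤ M := by
    intro n hn
    by_contra h
    exact hcon ⟨n, hn, (not_le.1 h).le⟩
  have hlam0 : 0 ≤ lam := by linarith
  have hTR : (1 : ℝ) ≤ T := by exact_mod_cast hTp
  have hM0 : 0 ≤ M := by rw [hMdef]; positivity
  have hI2p : 0 < Q.I2 := hε.trans hI2
  have hI1p : 0 < Q.I1 := hε.trans hI1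
  have h1ε : 0 < 1 - ε := by linarith
  have hI1ε : 0 < Q.I1 - ε := by linarith
  have h14 : 0 < 1 / 4 - 2 * ρ := by linarith
  have hKp : (0 : ℝ) < K := by exact_mod_cast (by omega : 0 < K)
  have hAc : 0 < Ac Q k ε := by unfold Ac; positivity
  have hβc : 0 < βc Q k ε := by unfold βc; positivity
  have hγc : 0 < γc Q k ρ ε := by unfold γc; positivity
  obtain ⟨D2, hctx⟩ := exists_ctx hAri a b ha hb hnp hadm
  obtain ⟨D3, hκ⟩ := κ1_of hTail k ε hε
  obtain ⟨D4, hov⟩ := ovl_of hTail k ε hε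
  obtain ⟨D5, hκ3⟩ := κ3_of hTail k ε hε
  obtain ⟨D6, hsum⟩ := sums_all Q hOD (k + 1) ε hε ρ hρ hρ1
  set D := D2 + D3 + D4 + D5 + D6 with hD
  obtain ⟨v, hc⟩ := hctx D (by omega)
  have hκ := hκ D (by omega)
  have hov := hov D (by omega)
  have hκ3 := hκ3 D (by omega)
  have hsum := hsum D (by omega)
  have hsingle := single_bound Q hT2 hT3 hBV hPNT hPB hOB hc ρ hρ hρ1 ε hε hε1 hI1 hI2 hBr hκ hov
    (hsum.mono fun x hx => hx.1)
  have hpair := pair_bound Q hT2 hBV hPNT hPB hOB hc ρ hρ hρ1 ε hε hε1 hI1p hI2p hκ3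
    (hsum.mono fun x hx => hx.2)
  have hptw := ptw Q hPB hOB hc ρ hρ hρ1 (1 / 4) (by norm_num)
  set A0 : ℝ := (1 / 3 + ε) * (Q.I2 + ε) ^ k with hA0
  have hA0p : 0 < A0 := by positivity
  obtain ⟨x, hsingle, hpair, hptw, hsum, hE1, hQa, hQb, hpl, hx⟩ := (hsingle.and (hpair.and
    (hptw.and (hsum.and ((E1_le hPB ρ hρ hρ1 k D).and
    ((Q1_large ρ hρ k D hc.hW hc.BDpos (1 / (ε * A0))).and
    ((Q1_large ρ hρ k D hc.hW hc.BDpos (1 / (ε * Ac Q k ε))).and
    ((ev_polylog ((k : ℝ) * N0) 1 (1 / 4) 1 (by norm_num)).and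
      (eventually_gt_atTop (1 : ℝ)))))))))).exists
  have hx0 : 0 < x := by linarith
  have hlx : 0 < Real.log x := Real.log_pos hx
  have hL : 0 < Lr ρ x := by unfold Lr; positivity
  set L := Lr ρ x with hLd
  set P := Pr D x with hPd
  have hP : ∀ p ∈ P, p.Prime ∧ D < p := Pr_prime D x
  set Z := Q1 k D x L with hZ
  have hZA0 : x ≤ Z * (ε * A0) := by
    have h4 : 0 < ε * A0 := by positivity
    have := mul_le_mul_of_nonneg_right hQa h4.le
    calc x = 1 / (ε * A0) * x * (ε * A0) := by field_simp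
      _ ≤ _ := this
  have hZA : x ≤ Z * (ε * Ac Q k ε) := by
    have h4 : 0 < ε * Ac Q k ε := by positivity
    have := mul_le_mul_of_nonneg_right hQb h4.le
    calc x = 1 / (ε * Ac Q k ε) * x * (ε * Ac Q k ε) := by field_simp
      _ ≤ _ := this
  have hZ0 : 0 < Z := by
    have h4 : 0 < ε * A0 := by positivity
    by_contra h
    have h5 : Z * (ε * A0) ≤ 0 := mul_nonpos_of_nonpos_of_nonneg (not_lt.1 h) h4.le
    linarith
  set N := (Icc 1 ⌊x⌋₊).filter (fun n => n ≡ v [MOD (WW D)]) with hN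
  set u : ℕ → ℝ := fun n => Real.log (x / n) * (wP Q a b P L n) ^ 2 with hu
  have hNm : ∀ n ∈ Icc 1 ⌊x⌋₊, 1 ≤ n ∧ (n : ℝ) ≤ x := by
    intro n hn
    rw [Finset.mem_Icc] at hn
    exact ⟨hn.1, (Nat.cast_le.2 hn.2).trans (Nat.floor_le hx0.le)⟩
  have hu0 : ∀ n ∈ N, 0 ≤ u n := by
    intro n hn
    obtain ⟨h1, h2⟩ := hNm n (Finset.mem_filter.1 hn).1
    have hn0 : (0 : ℝ) < n := by exact_mod_cast h1
    apply mul_nonneg _ (sq_nonneg _)
    apply Real.log_nonneg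
    rw [le_div_iff₀ hn0]
    linarith
  -- total mass
  have hS1 : ∑ n ∈ N, u n ≤ Z * Ac Q k ε := by
    have h1 := S1_P Q hT1 hc ε hε hI2p x hx L hL P hP hsum.1
    calc ∑ n ∈ N, u n ≤ Z * A0 + (Real.log x + 1) * (Real.exp (L / 48 + L) *
          ∏ t : IP P, (1 + 3 * ((k + 1 : ℕ) : ℝ) / (prP P t : ℝ))) ^ 2 := h1
      _ ≤ Z * A0 + Z * (ε * A0) := by
          have h2 : x ^ (1 / 2 : ℝ) ≤ x := by
            calc x ^ (1 / 2 : ℝ) ≤ x ^ (1 : ℝ) := Real.rpow_le_rpow_of_exponent_le hx.le (by norm_num)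
              _ = x := Real.rpow_one x
          linarith
      _ = Z * Ac Q k ε := by unfold Ac; rw [hA0]; ring
  -- classes
  have hclass : ∀ g : Fin T, K * (Z * (ρ * βc Q k ε)) - lam * ((K : ℝ) ^ 2 * (Z * γc Q k ρ ε)) ≤
      ∑ n ∈ N, u n * fn lam (univ.filter (fun i => cl i = g ∧ (a i * n + b i).Prime)).card := by
    intro g
    have h1 := class_sum N u (univ.filter (fun i => cl i = g))
      (fun i n => (a i * n + b i).Prime) (Z * (ρ * βc Q k ε)) (Z * γc Q k ρ ε) lam (by positivity)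
      hlam0 (by
        intro i _
        refine (hsingle i).trans (le_of_eq ?_)
        rw [hN, ← Finset.sum_filter, Finset.filter_filter]) (by
        intro i _ j _ hij
        refine le_trans (le_of_eq ?_) (hpair i j hij)
        rw [hN, ← Finset.sum_filter, Finset.filter_filter])
    rw [hcl g] at h1
    refine h1.trans (le_of_eq ?_)
    refine Finset.sum_congr rfl fun n _ => ?_
    rw [Finset.filter_filter]
  have hΦsum : T * (K * (Z * (ρ * βc Q k ε)) - lam * ((K : ℝ) ^ 2 * (Z * γc Q k ρ ε))) ≤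
      ∑ n ∈ N, u n * Φ n := by
    have h1 := Finset.card_nsmul_le_sum (univ : Finset (Fin T)) (fun g => ∑ n ∈ N, u n *
      fn lam (univ.filter (fun i => cl i = g ∧ (a i * n + b i).Prime)).card) _ (fun g _ => hclass g)
    rw [Finset.card_univ, Fintype.card_fin, nsmul_eq_mul] at h1
    refine h1.trans (le_of_eq ?_)
    rw [Finset.sum_comm]
    refine Finset.sum_congr rfl fun n _ => ?_
    rw [hΦ, Finset.mul_sum]
  -- trivial bound of the functional
  have hΦk : ∀ n, Φ n ≤ k := by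
    intro n
    have h1 : Φ n ≤ ∑ g : Fin T,
        ((univ.filter (fun i => cl i = g ∧ (a i * n + b i).Prime)).card : ℝ) := by
      rw [hΦ]
      exact Finset.sum_le_sum fun g _ => fn_le hlam0 _
    refine h1.trans ?_
    have h2 : ∑ g : Fin T, (univ.filter (fun i => cl i = g ∧ (a i * n + b i).Prime)).card ≤
        ∑ g : Fin T, K := by
      apply Finset.sum_le_sum
      intro g _
      rw [← hcl g]
      apply card_le_card
      intro i hi
      rw [mem_filter] at hi ⊢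
      exact ⟨hi.1, hi.2.1⟩
    rw [Finset.sum_const, Finset.card_univ, Fintype.card_fin, smul_eq_mul] at h2
    exact_mod_cast h2
  -- small `n`
  have hsmall : k * ∑ n ∈ N.filter (fun n => n ≤ N0), u n ≤ Z * (ε * Ac Q k ε) := by
    refine le_trans ?_ hZA
    have h1 : ∑ n ∈ N.filter (fun n => n ≤ N0), u n ≤ N0 * (Real.log x * x ^ (1 / 4 : ℝ)) := by
      have h2 : ∑ n ∈ N.filter (fun n => n ≤ N0), u n ≤
          ∑ _n ∈ N.filter (fun n => n ≤ N0), Real.log x * x ^ (1 / 4 : ℝ) := by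
        apply Finset.sum_le_sum
        intro n hn
        obtain ⟨h1, h2⟩ := hNm n (Finset.mem_filter.1 (Finset.mem_filter.1 hn).1).1
        have hn1 : (1 : ℝ) ≤ n := by exact_mod_cast h1
        simp only [hu]
        apply mul_le_mul _ (hptw n h1 h2).1 (sq_nonneg _) hlx.le
        apply Real.log_le_log (by positivity)
        exact div_le_self hx0.le hn1
      refine h2.trans ?_
      rw [Finset.sum_const, nsmul_eq_mul]
      apply mul_le_mul_of_nonneg_right _ (by positivity)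
      have h3 : N.filter (fun n => n ≤ N0) ⊆ Icc 1 N0 := by
        intro n hn
        rw [Finset.mem_filter] at hn
        rw [Finset.mem_Icc]
        exact ⟨(hNm n (Finset.mem_filter.1 hn.1).1).1, hn.2⟩
      have h4 := Finset.card_le_card h3
      rw [Nat.card_Icc, Nat.add_sub_cancel] at h4
      exact_mod_cast h4
    calc (k : ℝ) * ∑ n ∈ N.filter (fun n => n ≤ N0), u n
        ≤ k * (N0 * (Real.log x * x ^ (1 / 4 : ℝ))) := by gcongr
      _ = k * N0 * (Real.log x) ^ 1 * x ^ (1 / 4 : ℝ) := by ring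
      _ ≤ x ^ (1 : ℝ) := hpl
      _ = x := Real.rpow_one x
  -- upper bound
  have hup : ∑ n ∈ N, u n * Φ n ≤ M * ∑ n ∈ N, u n + k * ∑ n ∈ N.filter (fun n => n ≤ N0), u n := by
    have e5 : ∑ n ∈ N.filter (fun n => n ≤ N0), u n = ∑ n ∈ N, if n ≤ N0 then u n else 0 :=
      Finset.sum_filter _ _
    rw [e5, Finset.mul_sum, Finset.mul_sum, ← Finset.sum_add_distrib]
    apply Finset.sum_le_sum
    intro n hn
    have hun := hu0 n hn
    by_cases h : n ≤ N0
    · rw [if_pos h]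
      have h3 := mul_le_mul_of_nonneg_left (hΦk n) hun
      have h4 : 0 ≤ M * u n := by positivity
      linarith
    · rw [if_neg h, mul_zero, add_zero]
      have h3 := mul_le_mul_of_nonneg_left (hM n (not_le.1 h)) hun
      linarith
  have hfin : Z * (T * (K * (ρ * βc Q k ε) - lam * ((K : ℝ) ^ 2 * γc Q k ρ ε))) ≤
      Z * ((M * (1 + ε) + ε) * Ac Q k ε) := by
    have h1 : M * ∑ n ∈ N, u n ≤ M * (Z * Ac Q k ε) := mul_le_mul_of_nonneg_left hS1 hM0
    have h2 : (0 : ℝ) ≤ M * ε * (Z * Ac Q k ε) := by positivity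
    calc Z * (T * (K * (ρ * βc Q k ε) - lam * ((K : ℝ) ^ 2 * γc Q k ρ ε)))
        = T * (K * (Z * (ρ * βc Q k ε)) - lam * ((K : ℝ) ^ 2 * (Z * γc Q k ρ ε))) := by ring
      _ ≤ M * ∑ n ∈ N, u n + k * ∑ n ∈ N.filter (fun n => n ≤ N0), u n := hΦsum.trans hup
      _ ≤ M * (Z * Ac Q k ε) + Z * (ε * Ac Q k ε) := by linarith
      _ ≤ M * (Z * Ac Q k ε) + Z * (ε * Ac Q k ε) + M * ε * (Z * Ac Q k ε) := by linarith
      _ = _ := by ring
  have hfin3 := le_of_mul_le_mul_left hfin hZ0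
  linarith

theorem core_th (T : ℕ) (lam θ : ℝ) (hTp : 1 ≤ T) (hlam : 1 / 2 ≤ lam) (hθ0 : 0 < θ) (hθ : θ < 1 / 16) :
    ∃ K : ℕ, 2 ≤ K ∧ ∀ (a b : Fin (T * K) → ℕ) (cl : Fin (T * K) → Fin T),
      (∀ g, (univ.filter (fun i => cl i = g)).card = K) → (∀ i, 1 ≤ a i) → (∀ i, 1 ≤ b i) →
      (∀ i j, i ≠ j → a i * b j ≠ a j * b i) →
      (∀ p : ℕ, p.Prime → ∃ n : ℕ, ¬ p ∣ n ∧ ∀ i, ¬ p ∣ a i * n + b i) →
      ∀ N0 : ℕ, ∃ n, N0 < n ∧ (T : ℝ) * θ / lam ≤
        ∑ g : Fin T, fn lam (univ.filter (fun i => cl i = g ∧ (a i * n + b i).Prime)).card :=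
  core_th_of Pool.Agent.H361R2.s1Upper Pool.Agent.H732R2.s2Approx Pool.Agent.H361R2.s2Model bvap
    Pool.Agent.H732R2.pntLog Pool.Agent.H361R2.prodBound Pool.Agent.H361R2.omegaBound
    Pool.Agent.H399R2.oneDim Pool.Agent.H361R2.tailBound Pool.Agent.H398R2.ariSetup T lam θ hTp hlam hθ0 hθ

end Pool.Agent.X37.RW
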