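import Mathlib

/-! Windows of consecutive elements of a coloured finite set of integers with pairwise different colours. -/

set_option autoImplicit false

namespace Pool.Agent.X37.RW

open Finset

/-- the `e`-th element -/
noncomputable def F (J : Finset ℕ) (e : ℕ) : ℕ :=
  if h : e < J.card then J.orderEmbOfFin rfl ⟨e, h⟩ else 0

theorem F_mem (J : Finset ℕ) {e : ℕ} (h : e < J.card) : F J e ∈ J := by
  unfold F; rw [dif_pos h]; exact J.orderEmbOfFin_mem rfl _

theorem F_lt (J : Finset ℕ) {e e' : ℕ} (h : e < e') (h' : e' < J.card) : F J e < F J e' := by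
  unfold F
  rw [dif_pos (h.trans h'), dif_pos h']
  exact (J.orderEmbOfFin rfl).strictMono (by exact h)

theorem F_surj (J : Finset ℕ) {x : ℕ} (h : x ∈ J) : ∃ e < J.card, F J e = x := by
  have h1 : x ∈ Set.range (J.orderEmbOfFin rfl) := by
    rw [Finset.range_orderEmbOfFin]; exact h
  obtain ⟨e, he⟩ := h1
  refine ⟨e, e.2, ?_⟩
  unfold F
  rw [dif_pos e.2]; exact he

theorem F_le_iff (J : Finset ℕ) {e e' : ℕ} (h : e < J.card) (h' : e' < J.card) :
    F J e ≤ F J e' ↔ e ≤ e' := by
  constructor
  · intro h1
    by_contra h2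
    have := F_lt J (not_le.1 h2) h
    omega
  · intro h1
    rcases h1.eq_or_lt with rfl | h1
    · exact le_rfl
    · exact (F_lt J h1 h').le

theorem F_inj (J : Finset ℕ) {e e' : ℕ} (h : e < J.card) (h' : e' < J.card) (h1 : F J e = F J e') :
    e = e' := by
  apply le_antisymm
  · exact (F_le_iff J h h').1 h1.le
  · exact (F_le_iff J h' h).1 h1.ge

/-- pairs with equal colours -/
def mono (J : Finset ℕ) (c : ℕ → ℕ) (T : ℕ) : Finset (Finset ℕ) :=
  (range T).biUnion fun g => (J.filter (fun x => c x = g)).powersetCard 2

theorem mono_card (J : Finset ℕ) (c : ℕ → ℕ) (T : ℕ) :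
    (mono J c T).card ≤ ∑ g ∈ range T, ((J.filter (fun x => c x = g)).card).choose 2 := by
  unfold mono
  refine card_biUnion_le.trans (le_of_eq ?_)
  exact sum_congr rfl fun g _ => card_powersetCard 2 _

theorem exists_window {T k : ℕ} (J : Finset ℕ) (c : ℕ → ℕ) (hc : ∀ x ∈ J, c x < T)
    (h : (k : ℝ) < ∑ g ∈ range T, (((J.filter (fun x => c x = g)).card : ℝ) -
      (k / 2 : ℝ) * (((J.filter (fun x => c x = g)).card : ℝ) *
        (((J.filter (fun x => c x = g)).card : ℝ) - 1)))) :
    ∃ W ⊆ J, W.card = k + 1 ∧ (∀ x ∈ W, ∀ y ∈ W, c x = c y → x = y) ∧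
      ∀ y ∈ J, (∃ a ∈ W, a ≤ y) → (∃ b ∈ W, y ≤ b) → y ∈ W := by
  classical
  by_contra hcon
  push Not at hcon
  set M := J.card with hM
  -- every window has a pair of equal colours
  have hwin : ∀ e ∈ range (M - k), ∃ i j, e ≤ i ∧ i < j ∧ j ≤ e + k ∧ c (F J i) = c (F J j) := by
    intro e he
    rw [mem_range] at he
    by_contra hno
    push Not at hno
    have hlt : ∀ i ∈ Icc e (e + k), i < J.card := fun i hi => by
      rw [mem_Icc] at hi
      omega
    obtain ⟨y, hyJ, ⟨a, ha, hay⟩, ⟨b, hb, hyb⟩, hyW⟩ := hcon ((Icc e (e + k)).image (F J)) (by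
        intro x hx
        rw [mem_image] at hx
        obtain ⟨i, hi, rfl⟩ := hx
        exact F_mem J (hlt i hi)) (by
        rw [card_image_of_injOn, Nat.card_Icc]
        · omega
        · intro i hi j hj hij
          exact F_inj J (hlt i hi) (hlt j hj) hij) (by
        intro x hx y hy hxy
        rw [mem_image] at hx hy
        obtain ⟨i, hi, rfl⟩ := hx
        obtain ⟨j, hj, rfl⟩ := hy
        rw [mem_Icc] at hi hj
        rcases lt_trichotomy i j with h1 | h1 | h1
        · exact absurd hxy (hno i j (by omega) h1 (by omega))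
        · rw [h1]
        · exact absurd hxy.symm (hno j i (by omega) h1 (by omega)))
    rw [mem_image] at ha hb
    obtain ⟨i, hi, rfl⟩ := ha
    obtain ⟨j, hj, rfl⟩ := hb
    obtain ⟨l, hl, rfl⟩ := F_surj J hyJ
    apply hyW
    rw [mem_image]
    refine ⟨l, ?_, rfl⟩
    have h1 := (F_le_iff J (hlt i hi) hl).1 hay
    have h2 := (F_le_iff J hl (hlt j hj)).1 hyb
    rw [mem_Icc] at hi hj ⊢
    omega
  choose! i j h1 h2 h3 h4 using hwin
  have hcard : (range (M - k)).card ≤ k * (mono J c T).card := by
    apply card_le_mul_card_image_of_maps_to (f := fun e => ({F J (i e), F J (j e)} : Finset ℕ))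
    · intro e he
      have hi1 := h1 e he
      have hi2 := h2 e he
      have hi3 := h3 e he
      have hi4 := h4 e he
      have he' := mem_range.1 he
      have hj : j e < J.card := by omega
      unfold mono
      rw [mem_biUnion]
      refine ⟨c (F J (i e)), mem_range.2 (hc _ (F_mem J (by omega))), ?_⟩
      rw [mem_powersetCard]
      constructor
      · intro x hx
        rw [mem_insert, mem_singleton] at hx
        rw [mem_filter]
        rcases hx with rfl | rfl
        · exact ⟨F_mem J (by omega), rfl⟩
        · exact ⟨F_mem J hj, hi4.symm⟩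
      · rw [card_pair (F_lt J hi2 hj).ne]
    · intro b _
      rcases ((range (M - k)).filter (fun e => ({F J (i e), F J (j e)} : Finset ℕ) = b)).eq_empty_or_nonempty with h0 | ⟨e0, he0⟩
      · rw [h0]; simp
      · rw [mem_filter] at he0
        obtain ⟨he0, hb⟩ := he0
        have hi1 := h1 e0 he0
        have hi2 := h2 e0 he0
        have hi3 := h3 e0 he0
        have he0' := mem_range.1 he0
        have hsub : (range (M - k)).filter (fun e => ({F J (i e), F J (j e)} : Finset ℕ) = b) ⊆
            Icc (j e0 - k) (i e0) := by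
          intro e he
          rw [mem_filter] at he
          obtain ⟨he, hb'⟩ := he
          have hi1' := h1 e he
          have hi2' := h2 e he
          have hi3' := h3 e he
          have he' := mem_range.1 he
          rw [← hb] at hb'
          have hlt := F_lt J hi2 (by omega : j e0 < J.card)
          have hlt' := F_lt J hi2' (by omega : j e < J.card)
          have e1 : F J (i e) ∈ ({F J (i e0), F J (j e0)} : Finset ℕ) := by rw [← hb']; simp
          have e2 : F J (j e) ∈ ({F J (i e0), F J (j e0)} : Finset ℕ) := by rw [← hb']; simp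
          rw [mem_insert, mem_singleton] at e1 e2
          have e3 : i e = i e0 ∧ j e = j e0 := by
            rcases e1 with e1 | e1 <;> rcases e2 with e2 | e2
            · omega
            · exact ⟨F_inj J (by omega) (by omega) e1, F_inj J (by omega) (by omega) e2⟩
            · omega
            · omega
          rw [mem_Icc]
          omega
        refine (card_le_card hsub).trans ?_
        rw [Nat.card_Icc]
        omega
  have hsum : (M : ℝ) = ∑ g ∈ range T, ((J.filter (fun x => c x = g)).card : ℝ) := by
    rw [hM, card_eq_sum_card_fiberwise (f := c) (t := range T) (fun x hx => by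
      simpa using hc x hx)]
    push_cast
    rfl
  have h5 : ((M - k : ℕ) : ℝ) ≤ k * ∑ g ∈ range T,
      (((J.filter (fun x => c x = g)).card).choose 2 : ℝ) := by
    rw [card_range] at hcard
    have := hcard.trans (Nat.mul_le_mul_left k (mono_card J c T))
    exact_mod_cast this
  have h6 : (M : ℝ) - k ≤ ((M - k : ℕ) : ℝ) := by
    rcases le_or_gt k M with h | h
    · rw [Nat.cast_sub h]
    · have : M - k = 0 := by omega
      rw [this]
      have : (M : ℝ) < k := by exact_mod_cast h
      push_cast
      linarith
  rw [sum_sub_distrib, ← hsum] at h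
  have h7 : (k : ℝ) * ∑ g ∈ range T, (((J.filter (fun x => c x = g)).card).choose 2 : ℝ) =
      ∑ g ∈ range T, (k / 2 : ℝ) * (((J.filter (fun x => c x = g)).card : ℝ) *
        (((J.filter (fun x => c x = g)).card : ℝ) - 1)) := by
    rw [mul_sum]
    refine sum_congr rfl fun g _ => ?_
    rw [Nat.cast_choose_two]
    ring
  linarith

end Pool.Agent.X37.RW
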