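import Mathlib
import Pool.Agent.TH779.Ord.Fn
import Pool.Agent.X37.RW.Win

/-! Among `8 k ^ 2 + 1` classes of shifts there are `k + 1` consecutive primes from different classes. -/

set_option autoImplicit false

namespace Pool.Agent.X37.RW

open Finset
open Pool.Agent.TH779.Ord

/-- the numbers `n + t`, `t ∈ T`, are consecutive primes: they are prime, and every prime `n + j`
between two of them is one of them -/
def Consecutive (n : ℕ) (T : Finset ℕ) : Prop :=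
  (∀ t ∈ T, (n + t).Prime) ∧
    ∀ j : ℕ, (∃ a ∈ T, a ≤ j) → (∃ b ∈ T, j ≤ b) → (n + j).Prime → j ∈ T

/-- the statement of `exact_th` -/
def ExactStmt : Prop := ∀ (T : ℕ) (lam θ : ℝ), 1 ≤ T → 1 / 2 ≤ lam → 0 < θ → θ < 1 / 16 →
    ∃ K : ℕ, 2 ≤ K ∧ ∀ (q a : ℕ), 1 ≤ q → Nat.Coprime a q → ∀ h : ℕ → ℕ,
      (∀ x < T * K, ∀ y < T * K, h x = h y → x = y) →
      (∀ p : ℕ, p.Prime → ∃ r : ℕ, ∀ x < T * K, ¬ p ∣ r + h x) →
      ∃ J : Finset ℕ, (∀ x ∈ J, x < T * K) ∧ (T : ℝ) * θ / lam ≤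
        ∑ g ∈ range T, fn lam (J.filter (fun x => x / K = g)).card ∧
        {n : ℕ | n ≡ a [MOD q] ∧ (∀ x ∈ J, (n + q * h x).Prime) ∧
          ∀ y : ℕ, (∃ x < T * K, y ≤ q * h x) → (n + y).Prime → ∃ x ∈ J, y = q * h x}.Infinite

/-- the combinatorial part -/
theorem pick {T K k : ℕ} (hK : 1 ≤ K) (h : ℕ → ℕ) (hinj : ∀ x < T * K, ∀ y < T * K, h x = h y → x = y)
    (J : Finset ℕ) (hJ : ∀ x ∈ J, x < T * K)
    (hs : (k : ℝ) < ∑ g ∈ range T, fn (k / 2) (J.filter (fun x => x / K = g)).card) :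
    ∃ W ⊆ J, W.card = k + 1 ∧ (∀ x ∈ W, ∀ y ∈ W, x / K = y / K → x = y) ∧
      ∀ y ∈ J, (∃ a ∈ W, h a ≤ h y) → (∃ b ∈ W, h y ≤ h b) → y ∈ W := by
  classical
  have hinjJ : Set.InjOn h (J : Set ℕ) := fun x hx y hy hxy => hinj x (hJ x hx) y (hJ y hy) hxy
  set r : ℕ → ℕ := Function.invFunOn h (J : Set ℕ) with hr
  have hr1 : ∀ x ∈ J, r (h x) = x := fun x hx => hinjJ.leftInvOn_invFunOn hx
  set c : ℕ → ℕ := fun y => r y / K with hc
  have hcard : ∀ g, ((J.image h).filter (fun y => c y = g)).card =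
      (J.filter (fun x => x / K = g)).card := by
    intro g
    have h1 : (J.image h).filter (fun y => c y = g) = (J.filter (fun x => x / K = g)).image h := by
      ext y
      simp only [mem_filter, mem_image]
      constructor
      · rintro ⟨⟨x, hx, rfl⟩, h2⟩
        refine ⟨x, ⟨hx, ?_⟩, rfl⟩
        simpa only [hc, hr1 x hx] using h2
      · rintro ⟨x, ⟨hx, h2⟩, rfl⟩
        refine ⟨⟨x, hx, rfl⟩, ?_⟩
        simpa only [hc, hr1 x hx] using h2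
    rw [h1, card_image_of_injOn]
    exact hinjJ.mono (by
      intro x hx
      exact (mem_filter.1 hx).1)
  obtain ⟨W', hW', hW1, hW2, hW3⟩ := exists_window (T := T) (k := k) (J.image h) c (by
      intro y hy
      rw [mem_image] at hy
      obtain ⟨x, hx, rfl⟩ := hy
      simp only [hc, hr1 x hx]
      exact (Nat.div_lt_iff_lt_mul (by omega)).2 (hJ x hx)) (by
      refine hs.trans_le (le_of_eq ?_)
      refine sum_congr rfl fun g _ => ?_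
      rw [hcard g]
      unfold fn
      ring)
  have himg : (J.filter (fun x => h x ∈ W')).image h = W' := by
    ext y
    simp only [mem_image, mem_filter]
    constructor
    · rintro ⟨x, ⟨_, h2⟩, rfl⟩
      exact h2
    · intro hy
      obtain ⟨x, hx, rfl⟩ := mem_image.1 (hW' hy)
      exact ⟨x, ⟨hx, hy⟩, rfl⟩
  refine ⟨J.filter (fun x => h x ∈ W'), filter_subset _ _, ?_, ?_, ?_⟩
  · rw [← hW1, ← himg, card_image_of_injOn]
    · congr 1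
      ext x
      simp only [himg]
    · exact hinjJ.mono (by
        intro x hx
        exact (mem_filter.1 hx).1)
  · intro x hx y hy hxy
    rw [mem_filter] at hx hy
    apply hinjJ hx.1 hy.1
    apply hW2 _ hx.2 _ hy.2
    simp only [hc, hr1 x hx.1, hr1 y hy.1]
    exact hxy
  · rintro y hy ⟨a, ha, hay⟩ ⟨b, hb, hyb⟩
    rw [mem_filter] at ha hb ⊢
    exact ⟨hy, hW3 _ (mem_image_of_mem h hy) ⟨h a, ha.2, hay⟩ ⟨h b, hb.2, hyb⟩⟩

theorem run_of (hE : ExactStmt) (k : ℕ) (hk : 1 ≤ k) : ∃ K : ℕ, 2 ≤ K ∧ ∀ (q a : ℕ), 1 ≤ q →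
    Nat.Coprime a q → ∀ h : ℕ → ℕ,
    (∀ x < (8 * k ^ 2 + 1) * K, ∀ y < (8 * k ^ 2 + 1) * K, h x = h y → x = y) →
    (∀ p : ℕ, p.Prime → ∃ r : ℕ, ∀ x < (8 * k ^ 2 + 1) * K, ¬ p ∣ r + h x) →
    ∃ W : Finset ℕ, (∀ x ∈ W, x < (8 * k ^ 2 + 1) * K) ∧ W.card = k + 1 ∧
      (∀ x ∈ W, ∀ y ∈ W, x / K = y / K → x = y) ∧
      {n : ℕ | n ≡ a [MOD q] ∧ Consecutive n (W.image (fun x => q * h x))}.Infinite := by
  classical
  set T := 8 * k ^ 2 + 1 with hT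
  have hkR : (1 : ℝ) ≤ k := by exact_mod_cast hk
  have hk2 : (0 : ℝ) < (k : ℝ) ^ 2 := by positivity
  have hTR : (T : ℝ) = 8 * (k : ℝ) ^ 2 + 1 := by rw [hT]; push_cast; ring
  have hT0 : (0 : ℝ) < T := by rw [hTR]; positivity
  set θ₀ : ℝ := (k : ℝ) ^ 2 / (2 * T) with hθ₀
  have hθ₀' : θ₀ < 1 / 16 := by
    rw [hθ₀, div_lt_iff₀ (by positivity), hTR]
    linarith
  have hθ₀0 : 0 < θ₀ := by rw [hθ₀]; positivity
  set θ : ℝ := (θ₀ + 1 / 16) / 2 with hθ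
  obtain ⟨K, hK, hmain⟩ := hE T (k / 2) θ (by omega) (by linarith) (by linarith) (by linarith)
  refine ⟨K, hK, fun q a hq haq h hinj hadm => ?_⟩
  obtain ⟨J, hJ, hsum, hinf⟩ := hmain q a hq haq h hinj hadm
  have hlt : (k : ℝ) < (T : ℝ) * θ / (k / 2) := by
    rw [lt_div_iff₀ (by positivity)]
    have h1 : θ₀ < θ := by linarith
    have h2 : (T : ℝ) * θ₀ < T * θ := mul_lt_mul_of_pos_left h1 hT0
    have h3 : (T : ℝ) * θ₀ = k * (k / 2) := by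
      rw [hθ₀]; field_simp
    linarith
  obtain ⟨W, hWJ, hW1, hW2, hW3⟩ := pick (by omega : 1 ≤ K) h hinj J hJ (hlt.trans_le hsum)
  refine ⟨W, fun x hx => hJ x (hWJ hx), hW1, hW2, hinf.mono ?_⟩
  rintro n ⟨h1, h2, h3⟩
  refine ⟨h1, ?_, ?_⟩
  · intro t ht
    rw [mem_image] at ht
    obtain ⟨x, hx, rfl⟩ := ht
    exact h2 x (hWJ hx)
  · rintro j ⟨a', ha', haj⟩ ⟨b', hb', hjb⟩ hp
    rw [mem_image] at ha' hb'
    obtain ⟨x, hx, rfl⟩ := ha'
    obtain ⟨y, hy, rfl⟩ := hb'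
    obtain ⟨z, hz, rfl⟩ := h3 j ⟨y, hJ y (hWJ hy), hjb⟩ hp
    rw [mem_image]
    refine ⟨z, hW3 z hz ⟨x, hx, Nat.le_of_mul_le_mul_left haj hq⟩
      ⟨y, hy, Nat.le_of_mul_le_mul_left hjb hq⟩, rfl⟩

end Pool.Agent.X37.RW
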