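import Mathlib
import Pool.Agent.X37.RW.Run
import Pool.Agent.H461R2.PD.Dens

/-! An explicit proportion of the subsets of an arbitrary set are patterns of consecutive primes. -/

set_option autoImplicit false

namespace Pool.Agent.X37.RW

open Finset
open Pool.Agent.H461R2.PD

/-- the statement of the theorem on runs -/
def RunStmt (k K : ℕ) : Prop := 2 ≤ K ∧ ∀ (q a : ℕ), 1 ≤ q →
    Nat.Coprime a q → ∀ h : ℕ → ℕ,
    (∀ x < (8 * k ^ 2 + 1) * K, ∀ y < (8 * k ^ 2 + 1) * K, h x = h y → x = y) →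
    (∀ p : ℕ, p.Prime → ∃ r : ℕ, ∀ x < (8 * k ^ 2 + 1) * K, ¬ p ∣ r + h x) →
    ∃ W : Finset ℕ, (∀ x ∈ W, x < (8 * k ^ 2 + 1) * K) ∧ W.card = k + 1 ∧
      (∀ x ∈ W, ∀ y ∈ W, x / K = y / K → x = y) ∧
      {n : ℕ | n ≡ a [MOD q] ∧ Consecutive n (W.image (fun x => q * h x))}.Infinite

/-- runs for families of shifts indexed by `Fin T × Fin K` -/
theorem run_fin {k K : ℕ} (hR : RunStmt k K) {q a : ℕ} (hq : 1 ≤ q) (ha : Nat.Coprime a q)
    (H : Fin (8 * k ^ 2 + 1) → Fin K → ℕ) (hH : Adm H) :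
    ∃ (I : Finset (Fin (8 * k ^ 2 + 1))) (c : Fin (8 * k ^ 2 + 1) → Fin K), I.card = k + 1 ∧
      {n : ℕ | n ≡ a [MOD q] ∧ Consecutive n (I.image (fun g => q * H g (c g)))}.Infinite := by
  classical
  obtain ⟨hK, hrun⟩ := hR
  have hK0 : 0 < K := by omega
  set h : ℕ → ℕ := fun x => if hx : x < (8 * k ^ 2 + 1) * K then
    H ⟨x / K, (Nat.div_lt_iff_lt_mul hK0).2 hx⟩ ⟨x % K, Nat.mod_lt _ hK0⟩ else 0 with hh
  have hhx : ∀ x (hx : x < (8 * k ^ 2 + 1) * K), h x =
      H ⟨x / K, (Nat.div_lt_iff_lt_mul hK0).2 hx⟩ ⟨x % K, Nat.mod_lt _ hK0⟩ := by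
    intro x hx
    simp only [hh]
    rw [dif_pos hx]
  obtain ⟨W, hW0, hW1, hW2, hinf⟩ := hrun q a hq ha h (by
      intro x hx y hy hxy
      rw [hhx x hx, hhx y hy] at hxy
      have h1 := hH.1 (a₁ := (⟨x / K, (Nat.div_lt_iff_lt_mul hK0).2 hx⟩, ⟨x % K, Nat.mod_lt _ hK0⟩))
        (a₂ := (⟨y / K, (Nat.div_lt_iff_lt_mul hK0).2 hy⟩, ⟨y % K, Nat.mod_lt _ hK0⟩)) hxy
      rw [Prod.mk.injEq, Fin.mk.injEq, Fin.mk.injEq] at h1
      rw [← Nat.div_add_mod x K, ← Nat.div_add_mod y K, h1.1, h1.2]) (by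
      intro p hp
      obtain ⟨n, hn⟩ := hH.2 p hp
      have : NeZero p := ⟨hp.ne_zero⟩
      refine ⟨(n : ZMod p).val, fun x hx hd => hn ⟨x / K, (Nat.div_lt_iff_lt_mul hK0).2 hx⟩
        ⟨x % K, Nat.mod_lt _ hK0⟩ ?_⟩
      rw [← ZMod.intCast_zmod_eq_zero_iff_dvd]
      have h1 := (ZMod.natCast_eq_zero_iff _ p).2 hd
      rw [hhx x hx] at h1
      push_cast at h1 ⊢
      rw [ZMod.natCast_zmod_val] at h1
      exact h1)
  set gi : ℕ → Fin (8 * k ^ 2 + 1) := fun x => if hx : x < (8 * k ^ 2 + 1) * K then ⟨x / K, (Nat.div_lt_iff_lt_mul hK0).2 hx⟩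
    else ⟨0, by omega⟩ with hgi
  have hgix : ∀ x (hx : x < (8 * k ^ 2 + 1) * K), gi x = ⟨x / K, (Nat.div_lt_iff_lt_mul hK0).2 hx⟩ := by
    intro x hx
    simp only [hgi]
    rw [dif_pos hx]
  have hginj : Set.InjOn gi (W : Set ℕ) := by
    intro x hx y hy hxy
    rw [hgix x (hW0 x hx), hgix y (hW0 y hy), Fin.mk.injEq] at hxy
    exact hW2 x hx y hy hxy
  set inv : Fin (8 * k ^ 2 + 1) → ℕ := Function.invFunOn gi (W : Set ℕ) with hinv
  have hinv1 : ∀ x ∈ W, inv (gi x) = x := fun x hx => hginj.leftInvOn_invFunOn hx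
  refine ⟨W.image gi, fun g => ⟨inv g % K, Nat.mod_lt _ hK0⟩, ?_, ?_⟩
  · rw [card_image_of_injOn hginj, hW1]
  · have e : (W.image gi).image (fun g => q * H g ⟨inv g % K, Nat.mod_lt _ hK0⟩) =
        W.image (fun x => q * h x) := by
      rw [image_image]
      apply image_congr
      intro x hx
      have hx' : x ∈ W := hx
      simp only [Function.comp]
      rw [hhx x (hW0 x hx'), hinv1 x hx', hgix x (hW0 x hx')]
    rw [e]
    exact hinf

open Classical in
/-- ordered tuples of distinct elements which form a pattern of consecutive primes `≡ b (mod q)` -/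
noncomputable def goodC (q b k : ℕ) (V : Finset ℕ) : Finset (Fin k → ℕ) :=
  (Fintype.piFinset fun _ : Fin k => V).filter fun a => Function.Injective a ∧
    {n : ℕ | n ≡ b [MOD q] ∧ Consecutive n (univ.image (fun i => q * a i))}.Infinite

open Classical in
theorem tuplesC {k K : ℕ} (hk : 1 ≤ k) (hR : RunStmt k K) {ε : ℝ} (hε : 0 < ε) : ∃ n₀ : ℕ,
    ∀ (q b : ℕ), 1 ≤ q → Nat.Coprime b q → ∀ V : Finset ℕ,
    Miss (8 * k ^ 2 + 1) V → n₀ ≤ V.card →
    (1 / ((8 * k ^ 2).choose k : ℝ) - ε) * (V.card : ℝ) ^ (k + 1) ≤ (goodC q b (k + 1) V).card := by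
  have hkk : k ≤ 8 * k ^ 2 := by nlinarith
  have hK : 1 ≤ K := by have := hR.1; omega
  set β : ℝ := 1 / ((8 * k ^ 2).choose k : ℝ) with hβ
  have hch : 0 < ((8 * k ^ 2).choose k : ℝ) := by
    exact_mod_cast Nat.choose_pos hkk
  rcases le_or_gt β ε with hle | hlt
  · refine ⟨0, fun q b _ _ V _ _ => ?_⟩
    have : (β - ε) * (V.card : ℝ) ^ (k + 1) ≤ 0 :=
      mul_nonpos_of_nonpos_of_nonneg (by linarith) (by positivity)
    exact this.trans (by positivity)
  set x : ℝ := β - ε / 2 with hx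
  have hx0 : 0 ≤ x := by rw [hx]; linarith
  have hx1 : (((8 * k ^ 2 + 1) - 1).choose ((k + 1) - 1) : ℝ) * x < 1 := by
    simp only [Nat.add_sub_cancel]
    rw [hx, hβ, mul_sub, mul_one_div_cancel hch.ne']
    have : 0 < ((8 * k ^ 2).choose k : ℝ) * (ε / 2) := by positivity
    linarith
  set Q : ℕ := ((8 * k ^ 2 + 1) * K).factorial with hQdef
  have hQ0 : 0 < Q := Nat.factorial_pos _
  obtain ⟨n₀, hn₀⟩ := turan_blowup (r := k + 1) (T := 8 * k ^ 2 + 1) (K := Q * K) (by omega)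
    (by omega) (Nat.mul_pos hQ0 hK) hx0 hx1
  refine ⟨max n₀ (max (k + 1) (⌊2 * ((k + 1 : ℕ) : ℝ) ^ 2 / ε⌋₊ + 1)), fun q b hq hb V hV hcard => ?_⟩
  by_contra hcon
  push Not at hcon
  have hWc : Fintype.card V = V.card := by simp
  have hW0 : n₀ ≤ Fintype.card V := by rw [hWc]; exact (le_max_left _ _).trans hcard
  have hW1 : k + 1 ≤ Fintype.card V := by
    rw [hWc]; exact (le_max_left _ _).trans ((le_max_right _ _).trans hcard)
  have hW2 : ⌊2 * ((k + 1 : ℕ) : ℝ) ^ 2 / ε⌋₊ + 1 ≤ Fintype.card V := by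
    rw [hWc]; exact (le_max_right _ _).trans ((le_max_right _ _).trans hcard)
  set n : ℝ := (Fintype.card V : ℝ) with hn
  have hn0 : 0 < n := by
    rw [hn]
    have : 0 < Fintype.card V := by omega
    exact_mod_cast this
  have hnε : ((k + 1 : ℕ) : ℝ) ^ 2 / n ≤ ε / 2 := by
    have h1 : 2 * ((k + 1 : ℕ) : ℝ) ^ 2 / ε < n := by
      calc 2 * ((k + 1 : ℕ) : ℝ) ^ 2 / ε < ⌊2 * ((k + 1 : ℕ) : ℝ) ^ 2 / ε⌋₊ + 1 :=
            Nat.lt_floor_add_one _
        _ ≤ n := by rw [hn]; exact_mod_cast hW2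
    rw [div_lt_iff₀ hε] at h1
    rw [div_le_iff₀ hn0]
    linarith
  -- the bad sets
  set B : Finset (Finset V) := univ.filter fun I => I.card = k + 1 ∧
    ¬ {m : ℕ | m ≡ b [MOD q] ∧ Consecutive m (I.image (fun v : V => q * (v : ℕ)))}.Infinite with hB
  have hBr : ∀ I ∈ B, I.card = k + 1 := fun I hI => (mem_filter.1 hI).2.1
  -- all tuples
  have hcount : n ^ (k + 1) ≤ cnt B (k + 1) (k + 1) + (goodC q b (k + 1) V).card +
      ((univ.filter fun y : Fin (k + 1) → V => ¬ Function.Injective y).card : ℝ) := by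
    have h1 : (univ : Finset (Fin (k + 1) → V)) ⊆
        (univ.filter fun u : Fin (k + 1) → V => Clq B (k + 1) u) ∪
        (univ.filter fun u : Fin (k + 1) → V => (fun i => (u i : ℕ)) ∈ goodC q b (k + 1) V) ∪
        (univ.filter fun y : Fin (k + 1) → V => ¬ Function.Injective y) := by
      intro u _
      simp only [mem_union, mem_filter, mem_univ, true_and]
      by_cases hinj : Function.Injective u
      · left
        by_cases hp : {n : ℕ | n ≡ b [MOD q] ∧
            Consecutive n (univ.image (fun i => q * (u i : ℕ)))}.Infinite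
        · right
          rw [goodC, mem_filter, Fintype.mem_piFinset]
          exact ⟨fun i => (u i).2, fun i j hij => hinj (Subtype.ext hij), hp⟩
        · left
          intro I hI
          have hIu : I = univ := by
            rw [← card_eq_iff_eq_univ, hI, Fintype.card_fin]
          rw [hB, mem_filter]
          refine ⟨mem_univ _, by rw [card_image_of_injective _ hinj, hI], fun hinf => hp ?_⟩
          refine hinf.mono ?_
          intro m hm
          rw [image_image, hIu] at hm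
          exact hm
      · right
        exact hinj
    have h2 := (card_le_card h1).trans ((card_union_le _ _).trans
      (Nat.add_le_add_right (card_union_le _ _) _))
    rw [card_univ, Fintype.card_fun, Fintype.card_fin] at h2
    have h3 : (univ.filter fun u : Fin (k + 1) → V =>
        (fun i => (u i : ℕ)) ∈ goodC q b (k + 1) V).card ≤ (goodC q b (k + 1) V).card := by
      apply card_le_card_of_injOn (fun u i => (u i : ℕ))
      · intro u hu
        simpa using hu
      · intro u _ v _ huv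
        funext i
        exact Subtype.ext (congrFun huv i)
    have h4 : (Fintype.card V) ^ (k + 1) ≤ cnt B (k + 1) (k + 1) +
        (goodC q b (k + 1) V).card +
        (univ.filter fun y : Fin (k + 1) → V => ¬ Function.Injective y).card := by
      refine h2.trans ?_
      unfold cnt
      omega
    rw [hn]
    exact_mod_cast h4
  have hnon := card_noninj V (k + 1) hW1 (by omega)
  rw [← hn] at hnon
  have hbad : (1 - x) * n ^ (k + 1) ≤ cnt B (k + 1) (k + 1) := by
    have h5 : ((k + 1 : ℕ) : ℝ) ^ 2 / n * n ^ (k + 1) ≤ ε / 2 * n ^ (k + 1) := by gcongr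
    rw [← hWc, ← hn] at hcon
    rw [hx]
    linarith
  obtain ⟨A, hAK, hA⟩ := hn₀ V hW0 B hbad
  obtain ⟨H, hH, hHc⟩ := exists_family hV hBr (by right; omega) (by omega) hK hQ0
    (fun p hp hpp => Nat.dvd_factorial hpp.pos hp) hAK hA
  obtain ⟨I, c, hIc, hinf⟩ := run_fin hR hq hb _ hH
  have h6 := hHc c I hIc
  rw [hB, mem_filter] at h6
  apply h6.2.2
  rw [image_image]
  exact hinf

end Pool.Agent.X37.RW
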