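import Mathlib
import Pool.Agent.X37.RW.Prop

/-! From ordered tuples to subsets. -/

set_option autoImplicit false

namespace Pool.Agent.X37.RW

open Finset
open Pool.Agent.H461R2.PD

open Classical in
theorem goodC_card_le (q b k : ℕ) (V : Finset ℕ) : (goodC q b k V).card ≤
    k.factorial * ((V.powersetCard k).filter (fun T =>
      {n : ℕ | n ≡ b [MOD q] ∧ Consecutive n (T.image (fun t => q * t))}.Infinite)).card := by
  apply card_le_mul_card_image_of_maps_to (f := fun a : Fin k → ℕ => univ.image a)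
  · intro a ha
    rw [goodC, mem_filter, Fintype.mem_piFinset] at ha
    obtain ⟨h1, h2, h3⟩ := ha
    rw [mem_filter, mem_powersetCard]
    refine ⟨⟨?_, ?_⟩, ?_⟩
    · intro x hx
      rw [mem_image] at hx
      obtain ⟨i, _, rfl⟩ := hx
      exact h1 i
    · rw [card_image_of_injective _ h2, card_univ, Fintype.card_fin]
    · rw [image_image]
      exact h3
  · intro S hS
    rw [mem_filter, mem_powersetCard] at hS
    obtain ⟨Φ, hΦ⟩ : ∃ Φ : Finset (Fin k → ℕ),
        Φ = (goodC q b k V).filter (fun a => univ.image a = S) := ⟨_, rfl⟩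
    have hinj : ∀ a ∈ Φ, Function.Injective a := fun a ha => by
      rw [hΦ] at ha
      exact (mem_filter.1 (mem_filter.1 ha).1).2.1
    have hmem : ∀ a ∈ Φ, ∀ i : Fin k, a i ∈ S := by
      intro a ha i
      rw [hΦ] at ha
      have h1 := (mem_filter.1 ha).2
      rw [← h1]
      exact mem_image_of_mem _ (mem_univ _)
    have h1 : Fintype.card {a // a ∈ Φ} ≤ Fintype.card (Fin k ↪ {x // x ∈ S}) := by
      apply Fintype.card_le_of_injective (fun a => (⟨fun i => ⟨a.1 i, hmem a.1 a.2 i⟩, fun i j hij =>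
        hinj a.1 a.2 (congrArg Subtype.val hij)⟩ : Fin k ↪ {x // x ∈ S}))
      intro a a' haa
      apply Subtype.ext
      funext i
      have := congrArg (fun f : Fin k ↪ {x // x ∈ S} => ((f i : {x // x ∈ S}) : ℕ)) haa
      exact this
    rw [Fintype.card_coe, Fintype.card_embedding_eq, Fintype.card_fin, Fintype.card_coe, hS.1.2,
      Nat.descFactorial_self, hΦ] at h1
    exact h1

open Classical in
theorem subsetsC {k K : ℕ} (hk : 1 ≤ k) (hR : RunStmt k K) {ε : ℝ} (hε : 0 < ε) : ∃ n₀ : ℕ,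
    ∀ (q b : ℕ), 1 ≤ q → Nat.Coprime b q → ∀ V : Finset ℕ,
    Miss (8 * k ^ 2 + 1) V → n₀ ≤ V.card →
    (1 / ((8 * k ^ 2).choose k : ℝ) - ε) * (V.card.choose (k + 1) : ℝ) ≤
      (((V.powersetCard (k + 1)).filter (fun T =>
      {n : ℕ | n ≡ b [MOD q] ∧ Consecutive n (T.image (fun t => q * t))}.Infinite)).card : ℝ) := by
  obtain ⟨n₀, hn₀⟩ := tuplesC hk hR hε
  refine ⟨n₀, fun q b hq hb V hV hcard => ?_⟩
  have h1 := hn₀ q b hq hb V hV hcard
  have h2 := goodC_card_le q b (k + 1) V
  have h2' : ((goodC q b (k + 1) V).card : ℝ) ≤ ((k + 1).factorial : ℝ) *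
      (((V.powersetCard (k + 1)).filter (fun T =>
      {n : ℕ | n ≡ b [MOD q] ∧ Consecutive n (T.image (fun t => q * t))}.Infinite)).card : ℝ) := by
    exact_mod_cast h2
  set β : ℝ := 1 / ((8 * k ^ 2).choose k : ℝ) - ε with hβ
  rcases le_or_gt β 0 with h3 | h3
  · have : β * (V.card.choose (k + 1) : ℝ) ≤ 0 := mul_nonpos_of_nonpos_of_nonneg h3 (by positivity)
    exact this.trans (by positivity)
  · have h4 : ((k + 1).factorial : ℝ) * (V.card.choose (k + 1) : ℝ) ≤ (V.card : ℝ) ^ (k + 1) := by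
      have : (k + 1).factorial * V.card.choose (k + 1) ≤ V.card ^ (k + 1) := by
        rw [← Nat.descFactorial_eq_factorial_mul_choose]
        exact Nat.descFactorial_le_pow _ _
      exact_mod_cast this
    have h5 : β * (((k + 1).factorial : ℝ) * (V.card.choose (k + 1) : ℝ)) ≤
        β * (V.card : ℝ) ^ (k + 1) := mul_le_mul_of_nonneg_left h4 h3.le
    have h6 : (0 : ℝ) < (k + 1).factorial := by exact_mod_cast Nat.factorial_pos _
    have h7 : ((k + 1).factorial : ℝ) * (β * (V.card.choose (k + 1) : ℝ)) ≤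
        ((k + 1).factorial : ℝ) * (((V.powersetCard (k + 1)).filter (fun T =>
      {n : ℕ | n ≡ b [MOD q] ∧ Consecutive n (T.image (fun t => q * t))}.Infinite)).card : ℝ) := by
      calc ((k + 1).factorial : ℝ) * (β * (V.card.choose (k + 1) : ℝ)) =
          β * (((k + 1).factorial : ℝ) * (V.card.choose (k + 1) : ℝ)) := by ring
        _ ≤ _ := h5.trans (h1.trans h2')
    exact le_of_mul_le_mul_left h7 h6

end Pool.Agent.X37.RW
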