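import Mathlib
import Pool.Agent.X37.RW.Prop

/-! Near `k + 1` of any `8 k ^ 2 + 1` points there are `k + 1` consecutive primes. -/

set_option autoImplicit false

namespace Pool.Agent.X37.RW

open Finset
open Pool.Agent.H461R2.PD

theorem points {k K : ℕ} (hR : RunStmt k K) : ∃ C : ℕ, ∀ (q a : ℕ), 1 ≤ q → Nat.Coprime a q →
    ∀ x : Fin (8 * k ^ 2 + 1) → ℕ, Monotone x →
    ∃ (i : Fin (k + 1) → Fin (8 * k ^ 2 + 1)) (y : Fin (k + 1) → ℕ), StrictMono i ∧ StrictMono y ∧
      (∀ j, x (i j) ≤ y j ∧ y j ≤ x (i j) + C * q) ∧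
      {n : ℕ | n ≡ a [MOD q] ∧ Consecutive n (univ.image y)}.Infinite := by
  classical
  obtain ⟨hK, hrun⟩ := hR
  have hK0 : 0 < K := by omega
  obtain ⟨M, hM⟩ : ∃ M : ℕ, M = (8 * k ^ 2 + 1) * K := ⟨_, rfl⟩
  have hM0 : 0 < M := by rw [hM]; positivity
  refine ⟨M.factorial * (M + 1), fun q a hq ha x hx => ?_⟩
  set Q : ℕ := M.factorial with hQ
  have hQ0 : 0 < Q := Nat.factorial_pos _
  have hqQ : 0 < q * Q := Nat.mul_pos hq hQ0
  have hdiv : ∀ e, e < M → e / K < 8 * k ^ 2 + 1 := fun e he =>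
    (Nat.div_lt_iff_lt_mul hK0).2 (by rw [← hM]; exact he)
  set X : ℕ → ℕ := fun e => if he : e < M then x ⟨e / K, hdiv e he⟩ else 0 with hX
  have hXe : ∀ e (he : e < M), X e = x ⟨e / K, hdiv e he⟩ := by
    intro e he
    simp only [hX]
    rw [dif_pos he]
  have hXmono : ∀ e e', e ≤ e' → e' < M → X e ≤ X e' := by
    intro e e' h h'
    rw [hXe e (by omega), hXe e' h']
    apply hx
    rw [Fin.mk_le_mk]
    exact Nat.div_le_div_right h
  set h : ℕ → ℕ := fun e => Q * (X e / (q * Q) + 1 + e) with hh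
  have hlt : ∀ e e', e < e' → e' < M → h e < h e' := by
    intro e e' h1 h2
    simp only [hh]
    apply Nat.mul_lt_mul_of_pos_left _ hQ0
    have := Nat.div_le_div_right (c := q * Q) (hXmono e e' h1.le h2)
    omega
  have hinj : ∀ e < M, ∀ e' < M, h e = h e' → e = e' := by
    intro e he e' he' hee
    rcases lt_trichotomy e e' with h1 | h1 | h1
    · have := hlt e e' h1 he'; omega
    · exact h1
    · have := hlt e' e h1 he; omega
  have hlow : ∀ e, X e ≤ q * h e := by
    intro e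
    simp only [hh]
    have h1 := Nat.lt_div_mul_add (a := X e) hqQ
    calc X e ≤ X e / (q * Q) * (q * Q) + q * Q := h1.le
      _ ≤ X e / (q * Q) * (q * Q) + q * Q + q * Q * e := Nat.le_add_right _ _
      _ = q * (Q * (X e / (q * Q) + 1 + e)) := by ring
  have hupp : ∀ e, e < M → q * h e ≤ X e + Q * (M + 1) * q := by
    intro e he
    simp only [hh]
    have h1 := Nat.div_mul_le_self (X e) (q * Q)
    have h2 : q * Q * (1 + e) ≤ q * Q * (M + 1) := Nat.mul_le_mul_left _ (by omega)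
    calc q * (Q * (X e / (q * Q) + 1 + e)) = X e / (q * Q) * (q * Q) + q * Q * (1 + e) := by ring
      _ ≤ X e + q * Q * (M + 1) := Nat.add_le_add h1 h2
      _ = _ := by ring
  obtain ⟨W, hW0, hW1, hW2, hinf⟩ := hrun q a hq ha h (by rw [← hM]; exact hinj) (by
    intro p hp
    rw [← hM]
    rcases le_or_gt p M with hpM | hpM
    · refine ⟨1, fun e _ hd => hp.one_lt.ne' ?_⟩
      have h1 : p ∣ h e := ((Nat.dvd_factorial hp.pos hpM).mul_right _)
      exact Nat.dvd_one.1 ((Nat.dvd_add_left h1).1 hd)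
    · obtain ⟨n, hn⟩ := exists_shift (T := 1) (K := M) hp (by omega) (fun _ i => h i)
      have : NeZero p := ⟨hp.ne_zero⟩
      refine ⟨(n : ZMod p).val, fun e he hd => hn 0 ⟨e, he⟩ ?_⟩
      rw [← ZMod.intCast_zmod_eq_zero_iff_dvd]
      have h1 := (ZMod.natCast_eq_zero_iff _ p).2 hd
      push_cast at h1 ⊢
      rw [ZMod.natCast_zmod_val] at h1
      exact h1)
  rw [← hM] at hW0
  set e : Fin (k + 1) ↪o ℕ := W.orderEmbOfFin hW1 with he
  have heW : ∀ j, e j ∈ W := fun j => W.orderEmbOfFin_mem hW1 j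
  have heM : ∀ j, e j < M := fun j => hW0 _ (heW j)
  refine ⟨fun j => ⟨e j / K, hdiv _ (heM j)⟩, fun j => q * h (e j), ?_, ?_, ?_, ?_⟩
  · intro j j' hj
    rw [Fin.mk_lt_mk]
    have h1 : e j < e j' := e.strictMono hj
    rcases (Nat.div_le_div_right (c := K) h1.le).lt_or_eq with h2 | h2
    · exact h2
    · exact absurd (hW2 _ (heW j) _ (heW j') h2) h1.ne
  · intro j j' hj
    have h1 : e j < e j' := e.strictMono hj
    exact Nat.mul_lt_mul_of_pos_left (hlt _ _ h1 (heM j')) hq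
  · intro j
    have h1 := hlow (e j)
    have h2 := hupp (e j) (heM j)
    rw [hXe _ (heM j)] at h1 h2
    exact ⟨h1, h2⟩
  · have e1 : univ.image (fun j => q * h (e j)) = W.image (fun x => q * h x) := by
      have e2 : (univ : Finset (Fin (k + 1))).image e = W := by
        rw [← coe_inj, coe_image, coe_univ, Set.image_univ, he, range_orderEmbOfFin]
      rw [← e2, image_image]
      rfl
    rw [e1]
    exact hinf

end Pool.Agent.X37.RW
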