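import Mathlib
import Pool.Agent.H461R2.PD.Dens

/-! A property which holds for some transversal of any `T` classes of size `K` holds for an explicit
proportion of all sets. -/

set_option autoImplicit false

namespace Pool.Agent.X37.RW

open Finset
open Pool.Agent.H461R2.PD

/-- among any `T` classes of `K` elements of `V` (the class of `x` is `x / K`) there are `k + 1`
elements in different classes forming a set with the property `P` -/
def Hit (T K k : ℕ) (V : Finset ℕ) (P : Finset ℕ → Prop) : Prop := ∀ h : ℕ → ℕ,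
  (∀ x < T * K, h x ∈ V) → (∀ x < T * K, ∀ y < T * K, h x = h y → x = y) →
  ∃ W : Finset ℕ, (∀ x ∈ W, x < T * K) ∧ W.card = k + 1 ∧
    (∀ x ∈ W, ∀ y ∈ W, x / K = y / K → x = y) ∧ P (W.image h)

theorem hit_fin {T K k : ℕ} (hT : 1 ≤ T) (hK0 : 0 < K) {V : Finset ℕ} {P : Finset ℕ → Prop}
    (hR : Hit T K k V P) (H : Fin T → Fin K → ℕ) (hHV : ∀ g i, H g i ∈ V)
    (hH : Function.Injective fun x : Fin T × Fin K => H x.1 x.2) :
    ∃ (I : Finset (Fin T)) (c : Fin T → Fin K), I.card = k + 1 ∧
      P (I.image (fun g => H g (c g))) := by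
  classical
  set h : ℕ → ℕ := fun x => if hx : x < T * K then
    H ⟨x / K, (Nat.div_lt_iff_lt_mul hK0).2 hx⟩ ⟨x % K, Nat.mod_lt _ hK0⟩ else 0 with hh
  have hhx : ∀ x (hx : x < T * K), h x =
      H ⟨x / K, (Nat.div_lt_iff_lt_mul hK0).2 hx⟩ ⟨x % K, Nat.mod_lt _ hK0⟩ := by
    intro x hx
    simp only [hh]
    rw [dif_pos hx]
  obtain ⟨W, hW0, hW1, hW2, hinf⟩ := hR h (by
      intro x hx
      rw [hhx x hx]
      exact hHV _ _) (by
      intro x hx y hy hxy
      rw [hhx x hx, hhx y hy] at hxy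
      have h1 := hH (a₁ := (⟨x / K, (Nat.div_lt_iff_lt_mul hK0).2 hx⟩, ⟨x % K, Nat.mod_lt _ hK0⟩))
        (a₂ := (⟨y / K, (Nat.div_lt_iff_lt_mul hK0).2 hy⟩, ⟨y % K, Nat.mod_lt _ hK0⟩)) hxy
      rw [Prod.mk.injEq, Fin.mk.injEq, Fin.mk.injEq] at h1
      rw [← Nat.div_add_mod x K, ← Nat.div_add_mod y K, h1.1, h1.2])
  set gi : ℕ → Fin T := fun x => if hx : x < T * K then ⟨x / K, (Nat.div_lt_iff_lt_mul hK0).2 hx⟩
    else ⟨0, by omega⟩ with hgi
  have hgix : ∀ x (hx : x < T * K), gi x = ⟨x / K, (Nat.div_lt_iff_lt_mul hK0).2 hx⟩ := by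
    intro x hx
    simp only [hgi]
    rw [dif_pos hx]
  have hginj : Set.InjOn gi (W : Set ℕ) := by
    intro x hx y hy hxy
    rw [hgix x (hW0 x hx), hgix y (hW0 y hy), Fin.mk.injEq] at hxy
    exact hW2 x hx y hy hxy
  set inv : Fin T → ℕ := Function.invFunOn gi (W : Set ℕ) with hinv
  have hinv1 : ∀ x ∈ W, inv (gi x) = x := fun x hx => hginj.leftInvOn_invFunOn hx
  refine ⟨W.image gi, fun g => ⟨inv g % K, Nat.mod_lt _ hK0⟩, ?_, ?_⟩
  · rw [card_image_of_injOn hginj, hW1]
  · have e : (W.image gi).image (fun g => H g ⟨inv g % K, Nat.mod_lt _ hK0⟩) =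
        W.image h := by
      rw [image_image]
      apply image_congr
      intro x hx
      have hx' : x ∈ W := hx
      simp only [Function.comp]
      rw [hhx x (hW0 x hx'), hinv1 x hx', hgix x (hW0 x hx')]
    rw [e]
    exact hinf

open Classical in
/-- ordered tuples of distinct elements of `V` with the property `P` -/
noncomputable def goodP (P : Finset ℕ → Prop) (k : ℕ) (V : Finset ℕ) : Finset (Fin k → ℕ) :=
  (Fintype.piFinset fun _ : Fin k => V).filter fun a => Function.Injective a ∧ P (univ.image a)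

open Classical in
theorem goodP_card_le (P : Finset ℕ → Prop) (k : ℕ) (V : Finset ℕ) : (goodP P k V).card ≤
    k.factorial * ((V.powersetCard k).filter P).card := by
  apply card_le_mul_card_image_of_maps_to (f := fun a : Fin k → ℕ => univ.image a)
  · intro a ha
    rw [goodP, mem_filter, Fintype.mem_piFinset] at ha
    obtain ⟨h1, h2, h3⟩ := ha
    rw [mem_filter, mem_powersetCard]
    refine ⟨⟨?_, ?_⟩, h3⟩
    · intro x hx
      rw [mem_image] at hx
      obtain ⟨i, _, rfl⟩ := hx
      exact h1 i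
    · rw [card_image_of_injective _ h2, card_univ, Fintype.card_fin]
  · intro S hS
    rw [mem_filter, mem_powersetCard] at hS
    obtain ⟨Φ, hΦ⟩ : ∃ Φ : Finset (Fin k → ℕ),
        Φ = (goodP P k V).filter (fun a => univ.image a = S) := ⟨_, rfl⟩
    have hinj : ∀ a ∈ Φ, Function.Injective a := fun a ha => by
      rw [hΦ] at ha
      exact (mem_filter.1 (mem_filter.1 ha).1).2.1
    have hmem : ∀ a ∈ Φ, ∀ i : Fin k, a i ∈ S := by
      intro a ha i
      rw [hΦ] at ha
      have h1 := (mem_filter.1 ha).2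
      rw [← h1]
      exact mem_image_of_mem _ (mem_univ _)
    have h1 : Fintype.card {a // a ∈ Φ} ≤ Fintype.card (Fin k ↪ {x // x ∈ S}) := by
      apply Fintype.card_le_of_injective (fun a => (⟨fun i => ⟨a.1 i, hmem a.1 a.2 i⟩, fun i j hij =>
        hinj a.1 a.2 (congrArg Subtype.val hij)⟩ : Fin k ↪ {x // x ∈ S}))
      intro a a' haa
      apply Subtype.ext
      funext i
      have := congrArg (fun f : Fin k ↪ {x // x ∈ S} => ((f i : {x // x ∈ S}) : ℕ)) haa
      exact this
    rw [Fintype.card_coe, Fintype.card_embedding_eq, Fintype.card_fin, Fintype.card_coe, hS.1.2,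
      Nat.descFactorial_self, hΦ] at h1
    exact h1

open Classical in
theorem tuplesP {T K k : ℕ} (hk : 1 ≤ k) (hkT : k < T) (hK : 1 ≤ K) {ε : ℝ} (hε : 0 < ε) :
    ∃ n₀ : ℕ, ∀ (V : Finset ℕ) (P : Finset ℕ → Prop), Hit T K k V P → n₀ ≤ V.card →
    (1 / ((T - 1).choose k : ℝ) - ε) * (V.card : ℝ) ^ (k + 1) ≤ (goodP P (k + 1) V).card := by
  set β : ℝ := 1 / ((T - 1).choose k : ℝ) with hβ
  have hch : 0 < ((T - 1).choose k : ℝ) := by
    exact_mod_cast Nat.choose_pos (by omega : k ≤ T - 1)
  rcases le_or_gt β ε with hle | hlt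
  · refine ⟨0, fun V P _ _ => ?_⟩
    have : (β - ε) * (V.card : ℝ) ^ (k + 1) ≤ 0 :=
      mul_nonpos_of_nonpos_of_nonneg (by linarith) (by positivity)
    exact this.trans (by positivity)
  set x : ℝ := β - ε / 2 with hx
  have hx0 : 0 ≤ x := by rw [hx]; linarith
  have hx1 : ((T - 1).choose ((k + 1) - 1) : ℝ) * x < 1 := by
    simp only [Nat.add_sub_cancel]
    rw [hx, hβ, mul_sub, mul_one_div_cancel hch.ne']
    have : 0 < ((T - 1).choose k : ℝ) * (ε / 2) := by positivity
    linarith
  obtain ⟨n₀, hn₀⟩ := turan_blowup (r := k + 1) (T := T) (K := K) (by omega)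
    (by omega) hK hx0 hx1
  refine ⟨max n₀ (max (k + 1) (⌊2 * ((k + 1 : ℕ) : ℝ) ^ 2 / ε⌋₊ + 1)), fun V P hP hcard => ?_⟩
  by_contra hcon
  push Not at hcon
  have hWc : Fintype.card V = V.card := by simp
  have hW0 : n₀ ≤ Fintype.card V := by rw [hWc]; exact (le_max_left _ _).trans hcard
  have hW1 : k + 1 ≤ Fintype.card V := by
    rw [hWc]; exact (le_max_left _ _).trans ((le_max_right _ _).trans hcard)
  have hW2 : ⌊2 * ((k + 1 : ℕ) : ℝ) ^ 2 / ε⌋₊ + 1 ≤ Fintype.card V := by
    rw [hWc]; exact (le_max_right _ _).trans ((le_max_right _ _).trans hcard)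
  set n : ℝ := (Fintype.card V : ℝ) with hn
  have hn0 : 0 < n := by
    rw [hn]
    have : 0 < Fintype.card V := by omega
    exact_mod_cast this
  have hnε : ((k + 1 : ℕ) : ℝ) ^ 2 / n ≤ ε / 2 := by
    have h1 : 2 * ((k + 1 : ℕ) : ℝ) ^ 2 / ε < n := by
      calc 2 * ((k + 1 : ℕ) : ℝ) ^ 2 / ε < ⌊2 * ((k + 1 : ℕ) : ℝ) ^ 2 / ε⌋₊ + 1 :=
            Nat.lt_floor_add_one _
        _ ≤ n := by rw [hn]; exact_mod_cast hW2
    rw [div_lt_iff₀ hε] at h1
    rw [div_le_iff₀ hn0]
    linarith
  -- the bad sets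
  set B : Finset (Finset V) := univ.filter fun I => I.card = k + 1 ∧
    ¬ P (I.image (fun v : V => (v : ℕ))) with hB
  have hBr : ∀ I ∈ B, I.card = k + 1 := fun I hI => (mem_filter.1 hI).2.1
  -- all tuples
  have hcount : n ^ (k + 1) ≤ cnt B (k + 1) (k + 1) + (goodP P (k + 1) V).card +
      ((univ.filter fun y : Fin (k + 1) → V => ¬ Function.Injective y).card : ℝ) := by
    have h1 : (univ : Finset (Fin (k + 1) → V)) ⊆
        (univ.filter fun u : Fin (k + 1) → V => Clq B (k + 1) u) ∪
        (univ.filter fun u : Fin (k + 1) → V => (fun i => (u i : ℕ)) ∈ goodP P (k + 1) V) ∪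
        (univ.filter fun y : Fin (k + 1) → V => ¬ Function.Injective y) := by
      intro u _
      simp only [mem_union, mem_filter, mem_univ, true_and]
      by_cases hinj : Function.Injective u
      · left
        by_cases hp : P (univ.image (fun i => (u i : ℕ)))
        · right
          rw [goodP, mem_filter, Fintype.mem_piFinset]
          exact ⟨fun i => (u i).2, fun i j hij => hinj (Subtype.ext hij), hp⟩
        · left
          intro I hI
          have hIu : I = univ := by
            rw [← card_eq_iff_eq_univ, hI, Fintype.card_fin]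
          rw [hB, mem_filter]
          refine ⟨mem_univ _, by rw [card_image_of_injective _ hinj, hI], fun hinf => hp ?_⟩
          rw [image_image, hIu] at hinf
          exact hinf
      · right
        exact hinj
    have h2 := (card_le_card h1).trans ((card_union_le _ _).trans
      (Nat.add_le_add_right (card_union_le _ _) _))
    rw [card_univ, Fintype.card_fun, Fintype.card_fin] at h2
    have h3 : (univ.filter fun u : Fin (k + 1) → V =>
        (fun i => (u i : ℕ)) ∈ goodP P (k + 1) V).card ≤ (goodP P (k + 1) V).card := by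
      apply card_le_card_of_injOn (fun u i => (u i : ℕ))
      · intro u hu
        simpa using hu
      · intro u _ v _ huv
        funext i
        exact Subtype.ext (congrFun huv i)
    have h4 : (Fintype.card V) ^ (k + 1) ≤ cnt B (k + 1) (k + 1) +
        (goodP P (k + 1) V).card +
        (univ.filter fun y : Fin (k + 1) → V => ¬ Function.Injective y).card := by
      refine h2.trans ?_
      unfold cnt
      omega
    rw [hn]
    exact_mod_cast h4
  have hnon := card_noninj V (k + 1) hW1 (by omega)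
  rw [← hn] at hnon
  have hbad : (1 - x) * n ^ (k + 1) ≤ cnt B (k + 1) (k + 1) := by
    have h5 : ((k + 1 : ℕ) : ℝ) ^ 2 / n * n ^ (k + 1) ≤ ε / 2 * n ^ (k + 1) := by gcongr
    rw [← hWc, ← hn] at hcon
    rw [hx]
    linarith
  obtain ⟨A, hAK, hA⟩ := hn₀ V hW0 B hbad
  have hne : ∀ i, (A i).Nonempty := fun i => card_pos.1 (by rw [hAK i]; exact hK)
  set e : ∀ g, Fin K ≃ A g := fun g => ((A g).equivFinOfCardEq (hAK g)).symm with he
  have heA : ∀ g i, ((e g i : A g) : V) ∈ A g := fun g i => (e g i).2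
  have hHinj : Function.Injective fun y : Fin T × Fin K => (((e y.1 y.2 : A y.1) : V) : ℕ) := by
    rintro ⟨g, i⟩ ⟨g', i'⟩ hx
    simp only at hx
    have hx' : ((e g i : A g) : V) = e g' i' := Subtype.ext hx
    have hgg : g = g' := by
      by_contra hgg
      exact parts_disjoint hBr (by omega) (by omega) hne hA hgg (heA g i)
        (by rw [hx']; exact heA g' i')
    subst hgg
    have : e g i = e g i' := Subtype.ext hx'
    rw [(e g).injective this]
  obtain ⟨I, c, hIc, hinf⟩ := hit_fin (by omega : 1 ≤ T) (by omega : 0 < K) hP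
    (fun g i => (((e g i : A g) : V) : ℕ)) (fun g i => (((e g i : A g) : V)).2) hHinj
  have h6 := hA (fun g => ((e g (c g) : A g) : V)) (fun g => heA g (c g)) I hIc
  rw [hB, mem_filter] at h6
  apply h6.2.2
  rw [image_image]
  exact hinf

open Classical in
/-- an explicit proportion of the `(k + 1)`-element subsets of `V` have the property `P` -/
theorem subsetsP {T K k : ℕ} (hk : 1 ≤ k) (hkT : k < T) (hK : 1 ≤ K) {ε : ℝ} (hε : 0 < ε) :
    ∃ n₀ : ℕ, ∀ (V : Finset ℕ) (P : Finset ℕ → Prop), Hit T K k V P → n₀ ≤ V.card →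
    (1 / ((T - 1).choose k : ℝ) - ε) * (V.card.choose (k + 1) : ℝ) ≤
      (((V.powersetCard (k + 1)).filter P).card : ℝ) := by
  obtain ⟨n₀, hn₀⟩ := tuplesP (K := K) hk hkT hK hε
  refine ⟨n₀, fun V P hV hcard => ?_⟩
  have h1 := hn₀ V P hV hcard
  have h2 := goodP_card_le P (k + 1) V
  have h2' : ((goodP P (k + 1) V).card : ℝ) ≤ ((k + 1).factorial : ℝ) *
      (((V.powersetCard (k + 1)).filter P).card : ℝ) := by
    exact_mod_cast h2
  set β : ℝ := 1 / ((T - 1).choose k : ℝ) - ε with hβ
  rcases le_or_gt β 0 with h3 | h3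
  · have : β * (V.card.choose (k + 1) : ℝ) ≤ 0 := mul_nonpos_of_nonpos_of_nonneg h3 (by positivity)
    exact this.trans (by positivity)
  · have h4 : ((k + 1).factorial : ℝ) * (V.card.choose (k + 1) : ℝ) ≤ (V.card : ℝ) ^ (k + 1) := by
      have : (k + 1).factorial * V.card.choose (k + 1) ≤ V.card ^ (k + 1) := by
        rw [← Nat.descFactorial_eq_factorial_mul_choose]
        exact Nat.descFactorial_le_pow _ _
      exact_mod_cast this
    have h5 : β * (((k + 1).factorial : ℝ) * (V.card.choose (k + 1) : ℝ)) ≤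
        β * (V.card : ℝ) ^ (k + 1) := mul_le_mul_of_nonneg_left h4 h3.le
    have h6 : (0 : ℝ) < (k + 1).factorial := by exact_mod_cast Nat.factorial_pos _
    have h7 : ((k + 1).factorial : ℝ) * (β * (V.card.choose (k + 1) : ℝ)) ≤
        ((k + 1).factorial : ℝ) * (((V.powersetCard (k + 1)).filter P).card : ℝ) := by
      calc ((k + 1).factorial : ℝ) * (β * (V.card.choose (k + 1) : ℝ)) =
          β * (((k + 1).factorial : ℝ) * (V.card.choose (k + 1) : ℝ)) := by ring
        _ ≤ _ := h5.trans (h1.trans h2')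
    exact le_of_mul_le_mul_left h7 h6

end Pool.Agent.X37.RW
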