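import Mathlib
import Pool.Agent.X37.RW.Exact
import Pool.Agent.X37.RW.Run

/-! Exact patterns of primes among the values of a family of linear forms: `k + 1` forms from
different classes with prime values, all the forms between them with composite values. -/

set_option autoImplicit false

namespace Pool.Agent.X37.RW

open Finset
open Pool.Agent.TH779.Ord

/-- exact patterns among the values of linear forms: the forms with indices `g x` -/
theorem forms_exact (T : ℕ) (lam θ : ℝ) (hTp : 1 ≤ T) (hlam : 1 / 2 ≤ lam) (hθ0 : 0 < θ)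
    (hθ : θ < 1 / 16) :
    ∃ K : ℕ, 2 ≤ K ∧ ∀ (N : ℕ) (A B : ℕ → ℕ), (∀ i < N, 1 ≤ A i) →
      (∀ i < N, ∀ j < N, i ≠ j → A i * B j ≠ A j * B i) → ∀ g : ℕ → ℕ,
      (∀ x < T * K, g x < N) → (∀ x < T * K, ∀ y < T * K, g x = g y → x = y) →
      (∀ p : ℕ, p.Prime → ∃ r : ℕ, ∀ x < T * K, ¬ p ∣ A (g x) * r + B (g x)) →
      ∃ J : Finset ℕ, (∀ x ∈ J, x < T * K) ∧ (T : ℝ) * θ / lam ≤
        ∑ c ∈ range T, fn lam (J.filter (fun x => x / K = c)).card ∧
        {n : ℕ | (∀ x ∈ J, (A (g x) * n + B (g x)).Prime) ∧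
          ∀ i < N, (A i * n + B i).Prime → ∃ x ∈ J, i = g x}.Infinite := by
  classical
  obtain ⟨K, hK, hmain⟩ := few_th T lam θ hTp hlam hθ0 hθ
  refine ⟨K, hK, ?_⟩
  intro N A B hA hne g hg hinj hadm
  set M := T * K with hM
  set ι := Fin N with hι
  set S : Finset ι := univ.filter (fun j => ∃ x < M, g x = (j : ℕ)) with hS
  obtain ⟨W, ν, hW, hE, hSp⟩ := Pool.Agent.TH779.Shat.congruences (fun j : ι => A j)
    (fun j : ι => B j) (fun j => hA j j.2)
    (fun i j hij => hne i i.2 j j.2 (fun h => hij (Fin.ext h))) S Sᶜ disjoint_compl_left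
  have hfew := hmain (fun x => A (g x) * W) (fun x => A (g x) * ν + B (g x))
    (fun x hx => Nat.mul_pos (hA _ (hg x hx)) hW)
    (by
      intro x hx y hy h1 h2
      have h3 : A (g x) = A (g y) := Nat.eq_of_mul_eq_mul_right hW h1
      have h4 : B (g x) = B (g y) := by
        have h2' : A (g x) * ν + B (g x) = A (g y) * ν + B (g y) := h2
        rw [h3] at h2'
        omega
      apply hinj x hx y hy
      by_contra hcon
      exact hne _ (hg x hx) _ (hg y hy) hcon (by rw [h3, h4]))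
    (by
      intro p hp
      by_cases hpW : p ∣ W
      · refine ⟨0, fun x hx hd => ?_⟩
        rw [mul_zero, zero_add] at hd
        exact hSp p hp hpW ⟨g x, hg x hx⟩ (by
          rw [hS, mem_filter]
          exact ⟨mem_univ _, x, hx, rfl⟩) hd
      · obtain ⟨r, hr⟩ := hadm p hp
        have : Fact p.Prime := ⟨hp⟩
        have hWZ : (W : ZMod p) ≠ 0 := fun h => hpW ((ZMod.natCast_eq_zero_iff _ _).1 h)
        refine ⟨(((r : ZMod p) - ν) / W).val, fun x hx hd => ?_⟩
        rw [← ZMod.natCast_eq_zero_iff] at hd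
        push_cast at hd
        rw [ZMod.natCast_zmod_val] at hd
        apply hr x hx
        rw [← ZMod.natCast_eq_zero_iff]
        push_cast
        rw [← hd]
        field_simp
        ring)
  -- the pattern at `t`
  set Jt : ℕ → Finset ℕ := fun t =>
    (range M).filter (fun x => (A (g x) * W * t + (A (g x) * ν + B (g x))).Prime) with hJt
  set Sset : Set ℕ := {t : ℕ | 2 ≤ t ∧ (T : ℝ) * θ / lam ≤
    ∑ c ∈ range T, fn lam ((Jt t).filter (fun x => x / K = c)).card} with hSset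
  have hinf : Sset.Infinite := by
    rw [Set.infinite_iff_exists_gt]
    intro N0
    obtain ⟨t, ht1, ht2⟩ := hfew (N0 + 2)
    refine ⟨t, ⟨by omega, ht2.trans (le_of_eq ?_)⟩, by omega⟩
    apply sum_congr rfl
    intro c _
    congr 2
    ext x
    simp only [hJt, mem_filter, mem_range]
    tauto
  have hcover : Sset ⊆ ⋃ J : Set.Elem (((range M).powerset : Finset (Finset ℕ)) : Set (Finset ℕ)),
      {t ∈ Sset | Jt t = J.1} := by
    intro t ht
    rw [Set.mem_iUnion]
    refine ⟨⟨Jt t, ?_⟩, ht, rfl⟩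
    rw [mem_coe, mem_powerset]
    exact filter_subset _ _
  have : ∃ J : Finset ℕ, {t ∈ Sset | Jt t = J}.Infinite := by
    by_contra hcon
    push Not at hcon
    apply hinf
    apply Set.Finite.subset _ hcover
    exact Set.finite_iUnion (fun J => hcon J.1)
  obtain ⟨J, hJ⟩ := this
  obtain ⟨t₀, ht₀⟩ := hJ.nonempty
  have hJM : ∀ x ∈ J, x < M := by
    intro x hx
    rw [← ht₀.2, hJt] at hx
    exact mem_range.1 (mem_filter.1 hx).1
  refine ⟨J, hJM, ?_, ?_⟩
  · have := ht₀.1.2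
    rw [ht₀.2] at this
    exact this
  · have hinj' : Set.InjOn (fun t : ℕ => W * t + ν) {t ∈ Sset | Jt t = J} := by
      intro t _ t' _ e
      have e' : W * t = W * t' := by
        simp only at e
        omega
      exact Nat.eq_of_mul_eq_mul_left hW e'
    apply (hJ.image hinj').mono
    rintro _ ⟨t, ⟨ht1, ht2⟩, rfl⟩
    refine ⟨?_, ?_⟩
    · intro x hx
      rw [← ht2, hJt, mem_filter] at hx
      have h1 : A (g x) * (W * t + ν) + B (g x) = A (g x) * W * t + (A (g x) * ν + B (g x)) := by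
        ring
      simp only
      rw [h1]
      exact hx.2
    · rintro i hi hp
      simp only at hp
      by_cases hyS : (⟨i, hi⟩ : ι) ∈ S
      · rw [hS, mem_filter] at hyS
        obtain ⟨-, x', hx', he⟩ := hyS
        simp only at he
        refine ⟨x', ?_, he.symm⟩
        rw [← ht2, hJt, mem_filter, mem_range]
        refine ⟨hx', ?_⟩
        rw [he]
        have h1 : A i * (W * t + ν) + B i = A i * W * t + (A i * ν + B i) := by ring
        rw [← h1]
        exact hp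
      · exfalso
        obtain ⟨p, hp1, hp2, hp3⟩ := hE ⟨i, hi⟩ (mem_compl.2 hyS)
        simp only at hp3
        have h1 : p ∣ A i * (W * t + ν) + B i := by
          have h2 : A i * (W * t + ν) + B i = W * (A i * t) + (A i * ν + B i) := by ring
          rw [h2]
          exact dvd_add (hp2.mul_right _) hp3
        have h2 : p = A i * (W * t + ν) + B i := (Nat.prime_dvd_prime_iff_eq hp1 hp).1 h1
        have h3 : p ≤ W := Nat.le_of_dvd hW hp2
        have h4 : 2 ≤ t := ht1.1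
        have h5 : W * 2 ≤ A i * (W * t) := by
          calc W * 2 ≤ W * t := Nat.mul_le_mul_left _ h4
            _ = 1 * (W * t) := by ring
            _ ≤ A i * (W * t) := Nat.mul_le_mul_right _ (hA i hi)
        have h6 : A i * (W * t + ν) + B i = A i * (W * t) + (A i * ν + B i) := by ring
        omega

/-- the statement of the theorem on windows -/
def FormsRun (k K : ℕ) : Prop := 2 ≤ K ∧ ∀ (N : ℕ) (A B : ℕ → ℕ), (∀ i < N, 1 ≤ A i) →
    (∀ i < N, ∀ j < N, i ≠ j → A i * B j ≠ A j * B i) → ∀ g : ℕ → ℕ,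
    (∀ x < (8 * k ^ 2 + 1) * K, g x < N) →
    (∀ x < (8 * k ^ 2 + 1) * K, ∀ y < (8 * k ^ 2 + 1) * K, g x = g y → x = y) →
    (∀ p : ℕ, p.Prime → ∃ r : ℕ, ∀ x < (8 * k ^ 2 + 1) * K, ¬ p ∣ A (g x) * r + B (g x)) →
    ∃ W : Finset ℕ, (∀ x ∈ W, x < (8 * k ^ 2 + 1) * K) ∧ W.card = k + 1 ∧
      (∀ x ∈ W, ∀ y ∈ W, x / K = y / K → x = y) ∧
      {n : ℕ | (∀ x ∈ W, (A (g x) * n + B (g x)).Prime) ∧
        (∀ i, (∃ a ∈ W, g a ≤ i) → (∃ b ∈ W, i ≤ g b) → (A i * n + B i).Prime →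
          ∃ x ∈ W, i = g x) ∧
        ∀ i < N, (A i * n + B i).Prime → ∃ x < (8 * k ^ 2 + 1) * K, i = g x}.Infinite

theorem forms_run (k : ℕ) (hk : 1 ≤ k) : ∃ K : ℕ, FormsRun k K := by
  classical
  set T := 8 * k ^ 2 + 1 with hT
  have hkR : (1 : ℝ) ≤ k := by exact_mod_cast hk
  have hk2 : (0 : ℝ) < (k : ℝ) ^ 2 := by positivity
  have hTR : (T : ℝ) = 8 * (k : ℝ) ^ 2 + 1 := by rw [hT]; push_cast; ring
  have hT0 : (0 : ℝ) < T := by rw [hTR]; positivity
  set θ₀ : ℝ := (k : ℝ) ^ 2 / (2 * T) with hθ₀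
  have hθ₀' : θ₀ < 1 / 16 := by
    rw [hθ₀, div_lt_iff₀ (by positivity), hTR]
    linarith
  have hθ₀0 : 0 < θ₀ := by rw [hθ₀]; positivity
  set θ : ℝ := (θ₀ + 1 / 16) / 2 with hθ
  obtain ⟨K, hK, hmain⟩ := forms_exact T (k / 2) θ (by omega) (by linarith) (by linarith)
    (by linarith)
  refine ⟨K, hK, fun N A B hA hne g hg hinj hadm => ?_⟩
  obtain ⟨J, hJ, hsum, hinf⟩ := hmain N A B hA hne g hg hinj hadm
  have hlt : (k : ℝ) < (T : ℝ) * θ / (k / 2) := by
    rw [lt_div_iff₀ (by positivity)]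
    have h1 : θ₀ < θ := by linarith
    have h2 : (T : ℝ) * θ₀ < T * θ := mul_lt_mul_of_pos_left h1 hT0
    have h3 : (T : ℝ) * θ₀ = k * (k / 2) := by
      rw [hθ₀]; field_simp
    linarith
  obtain ⟨W, hWJ, hW1, hW2, hW3⟩ := pick (by omega : 1 ≤ K) g hinj J hJ (hlt.trans_le hsum)
  refine ⟨W, fun x hx => hJ x (hWJ hx), hW1, hW2, hinf.mono ?_⟩
  rintro n ⟨h2, h3⟩
  refine ⟨fun x hx => h2 x (hWJ hx), ?_, ?_⟩
  · rintro i ⟨a, ha, hai⟩ ⟨b, hb, hib⟩ hp
    obtain ⟨z, hz, rfl⟩ := h3 i (hib.trans_lt (hg b (hJ b (hWJ hb)))) hp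
    exact ⟨z, hW3 z hz ⟨a, ha, hai⟩ ⟨b, hb, hib⟩, rfl⟩
  · intro i hi hp
    obtain ⟨z, hz, rfl⟩ := h3 i hi hp
    exact ⟨z, hJ z hz, rfl⟩

end Pool.Agent.X37.RW
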