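import Mathlib
import Pool.Agent.X37.RW.Forms
import Pool.Agent.X37.RW.Dens

/-! Families of linear forms without local obstructions. -/

set_option autoImplicit false

namespace Pool.Agent.X37.RW

open Finset

/-- for infinitely many `n` the forms with indices in `T` have prime values, the other forms with
indices between the least and the greatest element of `T` composite values -/
def RealF (A B : ℕ → ℕ) (T : Finset ℕ) : Prop :=
  {n : ℕ | (∀ i ∈ T, (A i * n + B i).Prime) ∧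
    ∀ i, (∃ a ∈ T, a ≤ i) → (∃ b ∈ T, i ≤ b) → (A i * n + B i).Prime → i ∈ T}.Infinite

/-- a family of linear forms without local obstructions -/
structure Fam (A B : ℕ → ℕ) : Prop where
  pos : ∀ i, 1 ≤ A i
  ne : ∀ i j, i ≠ j → A i * B j ≠ A j * B i
  adm : ∀ p : ℕ, p.Prime → ∃ r : ℕ, ∀ i, ¬ p ∣ A i * r + B i

theorem hit_real {k K : ℕ} (hR : FormsRun k K) {A B : ℕ → ℕ} (hF : Fam A B) (h : ℕ → ℕ)
    (hinj : ∀ x < (8 * k ^ 2 + 1) * K, ∀ y < (8 * k ^ 2 + 1) * K, h x = h y → x = y) :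
    ∃ W : Finset ℕ, (∀ x ∈ W, x < (8 * k ^ 2 + 1) * K) ∧ W.card = k + 1 ∧
      (∀ x ∈ W, ∀ y ∈ W, x / K = y / K → x = y) ∧ RealF A B (W.image h) := by
  classical
  obtain ⟨W, hW1, hW2, hW3, hW4⟩ := hR.2 ((range ((8 * k ^ 2 + 1) * K)).sup h + 1) A B
    (fun i _ => hF.pos i) (fun i _ j _ hij => hF.ne i j hij) h
    (fun x hx => Nat.lt_succ_of_le (le_sup (f := h) (mem_range.2 hx))) hinj
    (fun p hp => by
      obtain ⟨r, hr⟩ := hF.adm p hp
      exact ⟨r, fun x _ => hr _⟩)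
  refine ⟨W, hW1, hW2, hW3, hW4.mono ?_⟩
  rintro n ⟨h1, h2, -⟩
  refine ⟨?_, ?_⟩
  · intro i hi
    rw [mem_image] at hi
    obtain ⟨x, hx, rfl⟩ := hi
    exact h1 x hx
  · rintro i ⟨a, ha, hai⟩ ⟨b, hb, hib⟩ hp
    rw [mem_image] at ha hb ⊢
    obtain ⟨x, hx, rfl⟩ := ha
    obtain ⟨y, hy, rfl⟩ := hb
    obtain ⟨z, hz, he⟩ := h2 i ⟨x, hx, hai⟩ ⟨y, hy, hib⟩ hp
    exact ⟨z, hz, he.symm⟩

open Classical in
theorem orbit_subsets (k : ℕ) (hk : 1 ≤ k) (ε : ℝ) (hε : 0 < ε) : ∃ n₀ : ℕ,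
    ∀ A B : ℕ → ℕ, Fam A B → ∀ V : Finset ℕ, n₀ ≤ V.card →
    (1 / ((8 * k ^ 2).choose k : ℝ) - ε) * (V.card.choose (k + 1) : ℝ) ≤
      (((V.powersetCard (k + 1)).filter (RealF A B)).card : ℝ) := by
  obtain ⟨K, hK⟩ := forms_run k hk
  have hkk : k < 8 * k ^ 2 + 1 := by nlinarith
  obtain ⟨n₀, hn₀⟩ := subsetsP (T := 8 * k ^ 2 + 1) (K := K) hk hkk (by have := hK.1; omega) hε
  refine ⟨n₀, fun A B hF V hV => ?_⟩
  exact hn₀ V (RealF A B) (fun h _ hinj => hit_real hK hF h hinj) hV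

/-- the forms `2 ^ i n + 2 ^ i - 1` -/
theorem fam_first : Fam (fun i => 2 ^ i) (fun i => 2 ^ i - 1) := by
  refine ⟨fun i => Nat.one_le_two_pow, ?_, ?_⟩
  · intro i j hij h
    have h1 : 1 ≤ 2 ^ i := Nat.one_le_two_pow
    have h2 : 1 ≤ 2 ^ j := Nat.one_le_two_pow
    have h3 : ((2 : ℤ) ^ i) * (2 ^ j - 1) = 2 ^ j * (2 ^ i - 1) := by
      have h4 := congrArg (fun x : ℕ => (x : ℤ)) h
      beta_reduce at h4
      push_cast [Nat.cast_sub h1, Nat.cast_sub h2] at h4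
      exact h4
    have h5 : (2 : ℤ) ^ i = 2 ^ j := by linarith
    exact hij (Int.pow_right_injective (by norm_num : 1 < (2 : ℤ).natAbs) h5)
  · intro p hp
    refine ⟨p - 1, fun i hd => ?_⟩
    have h1 : 1 ≤ 2 ^ i := Nat.one_le_two_pow
    have h0 := hp.one_lt
    obtain ⟨q, rfl⟩ : ∃ q, p = q + 1 := ⟨p - 1, by omega⟩
    simp only [Nat.add_sub_cancel] at hd
    have h2 : 2 ^ i * q + (2 ^ i - 1) + 1 = 2 ^ i * (q + 1) := by
      rw [Nat.mul_add, Nat.mul_one]; omega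
    have h3 : q + 1 ∣ 1 := by
      have h4 : q + 1 ∣ 2 ^ i * q + (2 ^ i - 1) + 1 := by rw [h2]; exact dvd_mul_left _ _
      exact (Nat.dvd_add_right hd).1 h4
    have := Nat.dvd_one.1 h3
    omega

/-- the forms `2 ^ i n + 1` -/
theorem fam_second : Fam (fun i => 2 ^ i) (fun _ => 1) := by
  refine ⟨fun i => Nat.one_le_two_pow, ?_, ?_⟩
  · intro i j hij h
    simp only [mul_one] at h
    exact hij (Nat.pow_right_injective le_rfl h)
  · intro p hp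
    refine ⟨0, fun i hd => ?_⟩
    simp only [mul_zero, zero_add] at hd
    exact hp.one_lt.ne' (Nat.dvd_one.1 hd)

end Pool.Agent.X37.RW
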