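import Mathlib
import Pool.Agent.X37.RW.Orbit
import Pool.Agent.X37.RW.Dens

/-! Isolated primes at times near any `8 k ^ 2 + 1` times, for families without local obstructions. -/

set_option autoImplicit false

namespace Pool.Agent.X37.RW

open Finset

theorem iso_points (k : ℕ) (hk : 1 ≤ k) (R : ℕ) : ∃ C : ℕ, ∀ A B : ℕ → ℕ, Fam A B →
    ∀ x : Fin (8 * k ^ 2 + 1) → ℕ, Monotone x →
    ∃ (i : Fin (k + 1) → Fin (8 * k ^ 2 + 1)) (y : Fin (k + 1) → ℕ), StrictMono i ∧
      (∀ j j', j < j' → y j + R < y j') ∧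
      (∀ j, x (i j) ≤ y j ∧ y j ≤ x (i j) + C) ∧
      {n : ℕ | ∀ l, y 0 ≤ l → l ≤ y (Fin.last k) + 2 * R →
        ((A l * n + B l).Prime ↔ ∃ j, l = y j + R)}.Infinite := by
  classical
  obtain ⟨K, hK, hrun⟩ := forms_run k hk
  have hK0 : 0 < K := by omega
  obtain ⟨M, hM⟩ : ∃ M : ℕ, M = (8 * k ^ 2 + 1) * K := ⟨_, rfl⟩
  have hM0 : 0 < M := by rw [hM]; positivity
  refine ⟨(R + 1) * M, fun A B hF x hx => ?_⟩
  have hdiv : ∀ e, e < M → e / K < 8 * k ^ 2 + 1 := fun e he =>
    (Nat.div_lt_iff_lt_mul hK0).2 (by rw [← hM]; exact he)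
  set X : ℕ → ℕ := fun e => if he : e < M then x ⟨e / K, hdiv e he⟩ else 0 with hX
  have hXe : ∀ e (he : e < M), X e = x ⟨e / K, hdiv e he⟩ := by
    intro e he
    simp only [hX]
    rw [dif_pos he]
  have hXmono : ∀ e e', e ≤ e' → e' < M → X e ≤ X e' := by
    intro e e' h h'
    rw [hXe e (by omega), hXe e' h']
    apply hx
    rw [Fin.mk_le_mk]
    exact Nat.div_le_div_right h
  set y₀ : ℕ → ℕ := fun e => X e + (R + 1) * e with hy₀
  have hlt : ∀ e e', e < e' → e' < M → y₀ e + R < y₀ e' := by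
    intro e e' h1 h2
    have h3 := hXmono e e' h1.le h2
    have h4 : (R + 1) * (e + 1) ≤ (R + 1) * e' := Nat.mul_le_mul_left _ h1
    rw [Nat.mul_add, Nat.mul_one] at h4
    simp only [hy₀]
    omega
  have hinj0 : ∀ e < M, ∀ e' < M, y₀ e ≤ y₀ e' + R → y₀ e' ≤ y₀ e + R → e = e' := by
    intro e he e' he' h1 h2
    rcases lt_trichotomy e e' with h3 | h3 | h3
    · have := hlt e e' h3 he'; omega
    · exact h3
    · have := hlt e' e h3 he; omega
  set g : ℕ → ℕ := fun e => y₀ e + R with hg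
  set N := (range M).sup y₀ with hN
  have hNe : ∀ e < M, y₀ e ≤ N := fun e he => le_sup (f := y₀) (mem_range.2 he)
  obtain ⟨W, hW0, hW1, hW2, hinf⟩ := hrun (N + 2 * R + 1) A B
    (fun i _ => hF.pos i) (fun i _ j _ hij => hF.ne i j hij) g
    (by
      intro e he
      rw [← hM] at he
      have := hNe e he
      simp only [hg]
      omega) (by
      rw [← hM]
      intro e he e' he' hee
      simp only [hg] at hee
      exact hinj0 e he e' he' (by omega) (by omega)) (by
      intro p hp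
      obtain ⟨r, hr⟩ := hF.adm p hp
      exact ⟨r, fun e _ => hr _⟩)
  rw [← hM] at hW0
  set e : Fin (k + 1) ↪o ℕ := W.orderEmbOfFin hW1 with he
  have heW : ∀ j, e j ∈ W := fun j => W.orderEmbOfFin_mem hW1 j
  have heM : ∀ j, e j < M := fun j => hW0 _ (heW j)
  have hesurj : ∀ z ∈ W, ∃ j, e j = z := by
    intro z hz
    have : z ∈ Set.range e := by rw [he, range_orderEmbOfFin]; exact hz
    exact this
  refine ⟨fun j => ⟨e j / K, hdiv _ (heM j)⟩, fun j => y₀ (e j), ?_, ?_, ?_, ?_⟩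
  · intro j j' hj
    rw [Fin.mk_lt_mk]
    have h1 : e j < e j' := e.strictMono hj
    rcases (Nat.div_le_div_right (c := K) h1.le).lt_or_eq with h2 | h2
    · exact h2
    · exact absurd (hW2 _ (heW j) _ (heW j') h2) h1.ne
  · intro j j' hj
    have h1 : e j < e j' := e.strictMono hj
    exact hlt _ _ h1 (heM j')
  · intro j
    have h2 := heM j
    have h3 : (R + 1) * e j ≤ (R + 1) * M := Nat.mul_le_mul_left _ h2.le
    rw [← hXe _ (heM j)]
    simp only [hy₀]
    omega
  · refine hinf.mono ?_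
    rintro n ⟨h1, h2, h3⟩ l hl1 hl2
    beta_reduce at hl1 hl2
    constructor
    · intro hp
      have hlN : l < N + 2 * R + 1 := by
        have := hNe _ (heM (Fin.last k))
        omega
      obtain ⟨z, hz, hzi⟩ := h3 l hlN hp
      rw [← hM] at hz
      simp only [hg] at hzi
      have hzW : z ∈ W := by
        have h6 : g (e 0) ≤ g z := by
          simp only [hg]
          rcases lt_or_ge z (e 0) with h7 | h7
          · exfalso
            have := hlt _ _ h7 (heM 0)
            omega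
          · rcases h7.lt_or_eq with h8 | h8
            · have := hlt _ _ h8 hz
              omega
            · rw [h8]
        have h9 : g z ≤ g (e (Fin.last k)) := by
          simp only [hg]
          rcases lt_or_ge (e (Fin.last k)) z with h7 | h7
          · exfalso
            have := hlt _ _ h7 hz
            omega
          · rcases h7.lt_or_eq with h8 | h8
            · have := hlt _ _ h8 (heM _)
              omega
            · rw [h8]
        have h10 : l = g z := by simp only [hg]; exact hzi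
        rw [h10] at hp
        obtain ⟨z', hz', hzz⟩ := h2 (g z) ⟨_, heW 0, h6⟩ ⟨_, heW _, h9⟩ hp
        simp only [hg] at hzz
        rw [hinj0 z hz z' (hW0 _ hz') (by omega) (by omega)]
        exact hz'
      obtain ⟨j, rfl⟩ := hesurj z hzW
      exact ⟨j, hzi⟩
    · rintro ⟨j, rfl⟩
      exact h1 _ (heW j)

/-- for infinitely many `n` the form with index `i`, `min T ≤ i ≤ max T + 2 R`, has a prime value
exactly if `i - R ∈ T` -/
def RealI (A B : ℕ → ℕ) (R : ℕ) (T : Finset ℕ) : Prop :=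
  {n : ℕ | ∀ i, (∃ t ∈ T, t ≤ i) → (∃ t ∈ T, i ≤ t + 2 * R) →
    ((A i * n + B i).Prime ↔ ∃ t ∈ T, i = t + R)}.Infinite

theorem hit_iso {k K : ℕ} (hR : FormsRun k K) {A B : ℕ → ℕ} (hF : Fam A B) {R : ℕ} {V : Finset ℕ}
    (hV : ∀ u ∈ V, ∀ v ∈ V, u < v → u + R < v) :
    Hit (8 * k ^ 2 + 1) K k V (RealI A B R) := by
  classical
  intro h hhV hinj
  have hsep : ∀ x < (8 * k ^ 2 + 1) * K, ∀ y < (8 * k ^ 2 + 1) * K, h x ≤ h y + R → h y ≤ h x + R →
      x = y := by
    intro x hx y hy h1 h2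
    apply hinj x hx y hy
    rcases lt_trichotomy (h x) (h y) with h3 | h3 | h3
    · have := hV _ (hhV x hx) _ (hhV y hy) h3
      omega
    · exact h3
    · have := hV _ (hhV y hy) _ (hhV x hx) h3
      omega
  obtain ⟨W, hW1, hW2, hW3, hW4⟩ := hR.2 (V.sup id + 2 * R + 1) A B
    (fun i _ => hF.pos i) (fun i _ j _ hij => hF.ne i j hij) (fun x => h x + R)
    (fun x hx => by
      have := le_sup (f := id) (hhV x hx)
      simp only [id] at this
      omega)
    (fun x hx y hy hxy => hinj x hx y hy (by omega))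
    (fun p hp => by
      obtain ⟨r, hr⟩ := hF.adm p hp
      exact ⟨r, fun x _ => hr _⟩)
  refine ⟨W, hW1, hW2, hW3, hW4.mono ?_⟩
  rintro n ⟨h1, h2, h3⟩
  rintro i ⟨t, ht, hti⟩ ⟨t', ht', hit⟩
  rw [mem_image] at ht ht'
  obtain ⟨a, ha, rfl⟩ := ht
  obtain ⟨b, hb, rfl⟩ := ht'
  constructor
  · intro hp
    have hbV := le_sup (f := id) (hhV b (hW1 b hb))
    simp only [id] at hbV
    obtain ⟨z, hz, hzi⟩ := h3 i (by omega) hp
    subst hzi
    -- `h a ≤ h z`, `h z ≤ h b`
    have h4 : h a ≤ h z := by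
      by_contra hcon
      push Not at hcon
      have := hV _ (hhV z hz) _ (hhV a (hW1 a ha)) hcon
      omega
    have h5 : h z ≤ h b := by
      by_contra hcon
      push Not at hcon
      have := hV _ (hhV b (hW1 b hb)) _ (hhV z hz) hcon
      omega
    obtain ⟨z', hz', hzz⟩ := h2 (h z + R) ⟨a, ha, by omega⟩ ⟨b, hb, by omega⟩ hp
    exact ⟨h z', mem_image_of_mem h hz', hzz⟩
  · rintro ⟨t, ht, rfl⟩
    rw [mem_image] at ht
    obtain ⟨z, hz, rfl⟩ := ht
    exact h1 z hz

open Classical in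
theorem iso_subsets (k : ℕ) (hk : 1 ≤ k) (ε : ℝ) (hε : 0 < ε) : ∃ n₀ : ℕ,
    ∀ (A B : ℕ → ℕ), Fam A B → ∀ (R : ℕ) (V : Finset ℕ),
    (∀ u ∈ V, ∀ v ∈ V, u < v → u + R < v) → n₀ ≤ V.card →
    (1 / ((8 * k ^ 2).choose k : ℝ) - ε) * (V.card.choose (k + 1) : ℝ) ≤
      (((V.powersetCard (k + 1)).filter (RealI A B R)).card : ℝ) := by
  obtain ⟨K, hK⟩ := forms_run k hk
  have hkk : k < 8 * k ^ 2 + 1 := by nlinarith
  obtain ⟨n₀, hn₀⟩ := subsetsP (T := 8 * k ^ 2 + 1) (K := K) hk hkk (by have := hK.1; omega) hε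
  exact ⟨n₀, fun A B hF R V hV hc => hn₀ V (RealI A B R) (hit_iso hK hF hV) hc⟩

end Pool.Agent.X37.RW
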