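import Mathlib
import Pool.Agent.X37.RW.Orbit
import Pool.Agent.W25.IT.Rat

/-! Patterns of consecutive primes in integral orbits of `x ↦ (b x + c) / a`. -/

set_option autoImplicit false

namespace Pool.Agent.X37.RW

open Finset Pool.Agent.W25.IT.Rat

/-- a finite family of linear forms, those with indices in `V` without local obstruction -/
structure FamOn (A B : ℕ → ℕ) (N : ℕ) (V : Finset ℕ) : Prop where
  sub : ∀ i ∈ V, i < N
  pos : ∀ i < N, 1 ≤ A i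
  ne : ∀ i < N, ∀ j < N, i ≠ j → A i * B j ≠ A j * B i
  adm : ∀ p : ℕ, p.Prime → ∃ r : ℕ, ∀ i ∈ V, ¬ p ∣ A i * r + B i

theorem hit_on {k K : ℕ} (hR : FormsRun k K) {A B : ℕ → ℕ} {N : ℕ} {V : Finset ℕ}
    (hF : FamOn A B N V) : Hit (8 * k ^ 2 + 1) K k V (RealF A B) := by
  classical
  intro h hV hinj
  obtain ⟨W, hW1, hW2, hW3, hW4⟩ := hR.2 N A B hF.pos hF.ne h (fun x hx => hF.sub _ (hV x hx)) hinj
    (fun p hp => by
      obtain ⟨r, hr⟩ := hF.adm p hp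
      exact ⟨r, fun x hx => hr _ (hV x hx)⟩)
  refine ⟨W, hW1, hW2, hW3, hW4.mono ?_⟩
  rintro n ⟨h1, h2, -⟩
  refine ⟨?_, ?_⟩
  · intro i hi
    rw [mem_image] at hi
    obtain ⟨x, hx, rfl⟩ := hi
    exact h1 x hx
  · rintro i ⟨a, ha, hai⟩ ⟨b, hb, hib⟩ hp
    rw [mem_image] at ha hb ⊢
    obtain ⟨x, hx, rfl⟩ := ha
    obtain ⟨y, hy, rfl⟩ := hb
    obtain ⟨z, hz, he⟩ := h2 i ⟨x, hx, hai⟩ ⟨y, hy, hib⟩ hp
    exact ⟨z, hz, he.symm⟩

open Classical in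
theorem on_subsets (k : ℕ) (hk : 1 ≤ k) (ε : ℝ) (hε : 0 < ε) : ∃ n₀ : ℕ,
    ∀ (A B : ℕ → ℕ) (N : ℕ) (V : Finset ℕ), FamOn A B N V → n₀ ≤ V.card →
    (1 / ((8 * k ^ 2).choose k : ℝ) - ε) * (V.card.choose (k + 1) : ℝ) ≤
      (((V.powersetCard (k + 1)).filter (RealF A B)).card : ℝ) := by
  obtain ⟨K, hK⟩ := forms_run k hk
  have hkk : k < 8 * k ^ 2 + 1 := by nlinarith
  obtain ⟨n₀, hn₀⟩ := subsetsP (T := 8 * k ^ 2 + 1) (K := K) hk hkk (by have := hK.1; omega) hε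
  exact ⟨n₀, fun A B N V hF hV => hn₀ V (RealF A B) (hit_on hK hF) hV⟩

/-- for infinitely many primes `q` the orbit `x 0 = q`, `a x (j + 1) = b x j + c` is integral up to the
time `max T - min T`, and `x j` is prime exactly if `min T + j ∈ T` -/
def RealRat (a b : ℕ) (c : ℤ) (T : Finset ℕ) : Prop :=
  {q : ℕ | q.Prime ∧ ∃ m ∈ T, (∀ t ∈ T, m ≤ t) ∧ ∃ x : ℕ → ℕ, x 0 = q ∧
    (∀ j, (∃ t ∈ T, m + j < t) → (a : ℤ) * x (j + 1) = b * x j + c) ∧
    ∀ j, (∃ t ∈ T, m + j ≤ t) → ((x j).Prime ↔ m + j ∈ T)}.Infinite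

theorem forms_ne {a b c : ℤ} (ha : 1 ≤ a) (hb : 1 ≤ b) (hc : c ≠ 0)
    {β : ℕ → ℤ} {J : ℕ} (hβ : ∀ i < J, a * β (i + 1) = b * β i + c) {i j : ℕ} (hi : i ≤ J)
    (hj : j ≤ J) (hij : i ≠ j) :
    (a ^ (J - i) * b ^ i) * β j ≠ (a ^ (J - j) * b ^ j) * β i := by
  wlog h : i < j generalizing i j with H
  · exact fun e => H hj hi hij.symm (by omega) e.symm
  obtain ⟨m, rfl⟩ : ∃ m, j = i + m := ⟨j - i, by omega⟩
  intro e
  have h3 := beta_iter hβ i m hj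
  have h6 := cj_pos a b c ha hb hc (show 1 ≤ m by omega)
  have e1 : J - i = m + (J - (i + m)) := by omega
  rw [e1, pow_add, pow_add] at e
  have h7 : a ^ (J - (i + m)) * b ^ i * cj a b c m = 0 := by
    have h8 : a ^ m * a ^ (J - (i + m)) * b ^ i * β (i + m) =
        a ^ (J - (i + m)) * b ^ i * (b ^ m * β i + cj a b c m) := by
      rw [← h3]; ring
    rw [h8] at e
    linear_combination e
  have h9 : a ^ (J - (i + m)) * b ^ i ≠ 0 := by positivity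
  exact (mul_ne_zero h9 h6) h7

open Classical in
theorem rat_subsets (k : ℕ) (hk : 1 ≤ k) (ε : ℝ) (hε : 0 < ε) : ∃ n₀ : ℕ,
    ∀ (a b : ℕ) (c : ℤ), 1 ≤ a → 1 ≤ b → c ≠ 0 → IsCoprime (a : ℤ) b → IsCoprime (a : ℤ) c →
      IsCoprime (b : ℤ) c → ¬ (Odd a ∧ Odd b ∧ Odd c) →
    ∀ V : Finset ℕ, (∀ l : ℕ, l.Prime → (l : ℤ) ∣ a - b → ¬ (l : ℤ) ∣ c →
      ∃ r : ℕ, ∀ v ∈ V, ¬ v ≡ r [MOD l]) → n₀ ≤ V.card →
    (1 / ((8 * k ^ 2).choose k : ℝ) - ε) * (V.card.choose (k + 1) : ℝ) ≤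
      (((V.powersetCard (k + 1)).filter (RealRat a b c)).card : ℝ) := by
  obtain ⟨n₀, hn₀⟩ := on_subsets k hk ε hε
  refine ⟨n₀, fun a b c ha hb hc hab hac hbc hpar V hV hcard => ?_⟩
  have ha' : (1 : ℤ) ≤ a := by exact_mod_cast ha
  have hb' : (1 : ℤ) ≤ b := by exact_mod_cast hb
  have hpar' : ¬ (Odd (a : ℤ) ∧ Odd (b : ℤ) ∧ Odd c) := by
    rintro ⟨h6, h7, h8⟩
    exact hpar ⟨by exact_mod_cast h6, by exact_mod_cast h7, h8⟩
  set N := V.sup id + 1 with hN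
  have hVN : ∀ v ∈ V, v < N := fun v hv => by
    have := le_sup (f := id) hv
    simp only [id] at this
    omega
  set J := N + 1 with hJ
  obtain ⟨β, hβ⟩ := exists_beta (a : ℤ) b c (by omega) hab J
  -- the shift
  obtain ⟨s, hs⟩ : ∃ s : ℕ, ∀ i < N, 0 ≤ (a : ℤ) ^ (J - (i + 1)) * b ^ (i + 1) * s + β (i + 1) := by
    refine ⟨(range N).sup (fun i => (β (i + 1)).natAbs), fun i hi => ?_⟩
    have h1 : (β (i + 1)).natAbs ≤ (range N).sup (fun i => (β (i + 1)).natAbs) :=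
      le_sup (f := fun i => (β (i + 1)).natAbs) (mem_range.2 hi)
    have h2 : (1 : ℤ) ≤ (a : ℤ) ^ (J - (i + 1)) * b ^ (i + 1) := by
      have : (0 : ℤ) < (a : ℤ) ^ (J - (i + 1)) * b ^ (i + 1) := by positivity
      omega
    have h3 : ((β (i + 1)).natAbs : ℤ) ≤ (((range N).sup (fun i => (β (i + 1)).natAbs) : ℕ) : ℤ) := by
      exact_mod_cast h1
    have h4 : - β (i + 1) ≤ ((β (i + 1)).natAbs : ℤ) := by omega
    nlinarith
  set A : ℕ → ℕ := fun i => a ^ (J - (i + 1)) * b ^ (i + 1) with hA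
  set B : ℕ → ℕ := fun i => ((a : ℤ) ^ (J - (i + 1)) * b ^ (i + 1) * s + β (i + 1)).toNat with hB
  have hBz : ∀ i < N, ((B i : ℕ) : ℤ) = (a : ℤ) ^ (J - (i + 1)) * b ^ (i + 1) * s + β (i + 1) :=
    fun i hi => Int.toNat_of_nonneg (hs i hi)
  have hAz : ∀ i, ((A i : ℕ) : ℤ) = (a : ℤ) ^ (J - (i + 1)) * b ^ (i + 1) := by
    intro i; simp [hA]
  have hLL : ∀ i < N, ∀ n : ℕ, ((A i * n + B i : ℕ) : ℤ) = LL a b β J (i + 1) (n + s) := by
    intro i hi n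
    rw [Nat.cast_add, Nat.cast_mul, hAz, hBz i hi]
    unfold LL
    ring
  have hF : FamOn A B N V := by
    refine ⟨hVN, fun i _ => ?_, fun i hi j hj hij h => ?_, fun p hp => ?_⟩
    · exact Nat.mul_pos (by positivity) (by positivity)
    · have h1 : ((A i : ℕ) : ℤ) * (B j : ℕ) = (A j : ℕ) * (B i : ℕ) := by exact_mod_cast h
      rw [hAz, hAz, hBz i hi, hBz j hj] at h1
      refine forms_ne ha' hb' hc hβ (show i + 1 ≤ J by omega) (show j + 1 ≤ J by omega)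
        (by omega) ?_
      linear_combination h1
    · obtain ⟨n, hn⟩ := rat_admissible (ι := V) hab hac hbc hpar' hβ (fun i => (i : ℕ) + 1)
        (fun i => ⟨by omega, by have := hVN i i.2; omega⟩) hp
        (fun _ h1 h2 => by
          obtain ⟨r, hr⟩ := hV p hp h1 h2
          refine rat_miss (ι := V) hβ (fun i => (i : ℕ) + 1)
            (fun i => by have := hVN i i.2; omega) hp
            (bad_not_dvd hab hp h1).1 h1 h2 (r + 1) (fun i hi => hr i i.2 ?_)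
          exact Nat.ModEq.add_right_cancel' 1 hi)
      have : NeZero p := ⟨hp.ne_zero⟩
      refine ⟨((n - s : ℤ) : ZMod p).val, fun i hi hd => hn ⟨i, hi⟩ ?_⟩
      rw [← ZMod.natCast_eq_zero_iff] at hd
      rw [← ZMod.intCast_zmod_eq_zero_iff_dvd]
      have h1 : ((B i : ℕ) : ZMod p) = (((a : ℤ) ^ (J - (i + 1)) * b ^ (i + 1) * s + β (i + 1) : ℤ) : ZMod p) := by
        rw [← hBz i (hVN i hi)]
        push_cast
        rfl
      rw [Nat.cast_add, Nat.cast_mul, ZMod.natCast_zmod_val, h1] at hd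
      simp only [hA] at hd
      push_cast at hd ⊢
      linear_combination hd
  refine (hn₀ A B N V hF hcard).trans (Nat.cast_le.2 (card_le_card ?_))
  intro T hT
  rw [mem_filter] at hT ⊢
  refine ⟨hT.1, ?_⟩
  have hTc := (mem_powersetCard.1 hT.1)
  have hTne : T.Nonempty := by rw [← card_pos, hTc.2]; omega
  have hTN : ∀ t ∈ T, t < N := fun t ht => hVN t (hTc.1 ht)
  set m := T.min' hTne with hm
  have hmT : m ∈ T := T.min'_mem hTne
  have hinj : Set.InjOn (fun n : ℕ => A m * n + B m) {n : ℕ | (∀ i ∈ T, (A i * n + B i).Prime) ∧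
    ∀ i, (∃ a ∈ T, a ≤ i) → (∃ b ∈ T, i ≤ b) → (A i * n + B i).Prime → i ∈ T} := by
    intro u _ v _ huv
    have h1 : A m * u = A m * v := by simp only at huv; omega
    exact Nat.eq_of_mul_eq_mul_left (hF.pos m (hTN m hmT)) h1
  refine (hT.2.image hinj).mono ?_
  rintro _ ⟨n, ⟨h1, h2⟩, rfl⟩
  refine ⟨h1 m hmT, m, hmT, fun t ht => T.min'_le t ht, fun j => A (m + j) * n + B (m + j), rfl,
    ?_, ?_⟩
  · rintro j ⟨t, ht, htj⟩
    have := hTN t ht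
    have h3 := LL_step hβ ((n : ℤ) + s) (show m + j + 1 < J by omega)
    have h4 := hLL (m + j) (by omega) n
    have h5 := hLL (m + (j + 1)) (by omega) n
    simp only
    rw [h4, h5]
    exact h3
  · rintro j ⟨t, ht, htj⟩
    constructor
    · intro hp
      exact h2 (m + j) ⟨m, hmT, Nat.le_add_right _ _⟩ ⟨t, ht, htj⟩ hp
    · intro hmem
      exact h1 _ hmem

end Pool.Agent.X37.RW
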