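import Mathlib
import Pool.Agent.X37.RW.Orbit

/-! The numbers `2 ^ l m ± 1`: near `k + 1` of any `8 k ^ 2 + 1` signed times. -/

set_option autoImplicit false

namespace Pool.Agent.X37.RW

open Finset

/-- `2 ^ l m + 1` for `s = true`, `2 ^ l m - 1` for `s = false` -/
def term (s : Bool) (l m : ℕ) : ℕ := if s then 2 ^ l * m + 1 else 2 ^ l * m - 1

/-- the constant terms in the variable `m - 1` -/
def sB (i : ℕ) : ℕ := if i % 2 = 1 then 2 ^ (i / 2) + 1 else 2 ^ (i / 2) - 1

theorem term_eq (l n : ℕ) (s : Bool) :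
    2 ^ ((2 * l + s.toNat) / 2) * n + sB (2 * l + s.toNat) = term s l (n + 1) := by
  have h1 : 1 ≤ 2 ^ l := Nat.one_le_two_pow
  cases s
  · have e1 : (2 * l + false.toNat) / 2 = l := by simp
    have e2 : (2 * l + false.toNat) % 2 = 0 := by simp
    unfold sB term
    rw [e1, e2]
    simp only [Nat.zero_ne_one, if_false, Bool.false_eq_true]
    rw [Nat.mul_add, Nat.mul_one]
    omega
  · have e1 : (2 * l + true.toNat) / 2 = l := by simp; omega
    have e2 : (2 * l + true.toNat) % 2 = 1 := by simp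
    unfold sB term
    rw [e1, e2]
    simp only [if_true]
    rw [Nat.mul_add, Nat.mul_one]
    omega

theorem fam_signed : Fam (fun i => 2 ^ (i / 2)) sB := by
  refine ⟨fun i => Nat.one_le_two_pow, ?_, ?_⟩
  · intro i j hij h
    beta_reduce at h
    have h1 : 1 ≤ 2 ^ (i / 2) := Nat.one_le_two_pow
    have h2 : 1 ≤ 2 ^ (j / 2) := Nat.one_le_two_pow
    unfold sB at h
    rcases Nat.mod_two_eq_zero_or_one i with hi | hi <;>
    rcases Nat.mod_two_eq_zero_or_one j with hj | hj
    · rw [if_neg (by omega), if_neg (by omega)] at h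
      zify [h1, h2] at h
      have h5 : (2 : ℤ) ^ (i / 2) = 2 ^ (j / 2) := by linarith
      have h6 : i / 2 = j / 2 := Int.pow_right_injective (by norm_num : 1 < (2 : ℤ).natAbs) h5
      omega
    · rw [if_pos (by omega), if_neg (by omega)] at h
      zify [h1, h2] at h
      have h5 : (2 : ℤ) ^ (i / 2) = - 2 ^ (j / 2) := by linarith
      have h6 : (0 : ℤ) < 2 ^ (i / 2) := by positivity
      have h7 : (0 : ℤ) < 2 ^ (j / 2) := by positivity
      linarith
    · rw [if_neg (by omega), if_pos (by omega)] at h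
      zify [h1, h2] at h
      have h5 : - (2 : ℤ) ^ (i / 2) = 2 ^ (j / 2) := by linarith
      have h6 : (0 : ℤ) < 2 ^ (i / 2) := by positivity
      have h7 : (0 : ℤ) < 2 ^ (j / 2) := by positivity
      linarith
    · rw [if_pos (by omega), if_pos (by omega)] at h
      zify at h
      have h5 : (2 : ℤ) ^ (i / 2) = 2 ^ (j / 2) := by linarith
      have h6 : i / 2 = j / 2 := Int.pow_right_injective (by norm_num : 1 < (2 : ℤ).natAbs) h5
      omega
  · intro p hp
    refine ⟨p - 1, fun i hd => ?_⟩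
    beta_reduce at hd
    have h1 : 1 ≤ 2 ^ (i / 2) := Nat.one_le_two_pow
    have h0 := hp.one_lt
    obtain ⟨q, rfl⟩ : ∃ q, p = q + 1 := ⟨p - 1, by omega⟩
    simp only [Nat.add_sub_cancel] at hd
    have h9 : q + 1 ∣ 2 ^ (i / 2) * (q + 1) := dvd_mul_left _ _
    have h3 : q + 1 ∣ 1 := by
      unfold sB at hd
      split_ifs at hd with hi
      · have h2 : 2 ^ (i / 2) * q + (2 ^ (i / 2) + 1) = 2 ^ (i / 2) * (q + 1) + 1 := by
          ring
        rw [h2] at hd
        exact (Nat.dvd_add_right h9).1 hd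
      · have h2 : 2 ^ (i / 2) * q + (2 ^ (i / 2) - 1) + 1 = 2 ^ (i / 2) * (q + 1) := by
          rw [Nat.mul_add, Nat.mul_one]; omega
        rw [← h2] at h9
        exact (Nat.dvd_add_right hd).1 h9
    have := Nat.dvd_one.1 h3
    omega

theorem signed_points (k : ℕ) (hk : 1 ≤ k) : ∃ C : ℕ,
    ∀ (x : Fin (8 * k ^ 2 + 1) → ℕ) (σ : Fin (8 * k ^ 2 + 1) → Bool), Monotone x →
    ∃ (i : Fin (k + 1) → Fin (8 * k ^ 2 + 1)) (y : Fin (k + 1) → ℕ), StrictMono i ∧ StrictMono y ∧
      (∀ j, x (i j) ≤ y j ∧ y j ≤ x (i j) + C) ∧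
      {m : ℕ | 0 < m ∧ (∀ j, (term (σ (i j)) (y j) m).Prime) ∧
        ∀ l s, y 0 ≤ l → l ≤ y (Fin.last k) → (term s l m).Prime →
          ∃ j, l = y j ∧ s = σ (i j)}.Infinite := by
  classical
  obtain ⟨K, hK, hrun⟩ := forms_run k hk
  have hK0 : 0 < K := by omega
  obtain ⟨M, hM⟩ : ∃ M : ℕ, M = (8 * k ^ 2 + 1) * K := ⟨_, rfl⟩
  have hM0 : 0 < M := by rw [hM]; positivity
  refine ⟨M, fun x σ hx => ?_⟩
  have hdiv : ∀ e, e < M → e / K < 8 * k ^ 2 + 1 := fun e he =>
    (Nat.div_lt_iff_lt_mul hK0).2 (by rw [← hM]; exact he)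
  set X : ℕ → ℕ := fun e => if he : e < M then x ⟨e / K, hdiv e he⟩ else 0 with hX
  set τ : ℕ → Bool := fun e => if he : e < M then σ ⟨e / K, hdiv e he⟩ else false with hS
  have hXe : ∀ e (he : e < M), X e = x ⟨e / K, hdiv e he⟩ := by
    intro e he
    simp only [hX]
    rw [dif_pos he]
  have hSe : ∀ e (he : e < M), τ e = σ ⟨e / K, hdiv e he⟩ := by
    intro e he
    simp only [hS]
    rw [dif_pos he]
  have hXmono : ∀ e e', e ≤ e' → e' < M → X e ≤ X e' := by
    intro e e' h h'
    rw [hXe e (by omega), hXe e' h']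
    apply hx
    rw [Fin.mk_le_mk]
    exact Nat.div_le_div_right h
  set g : ℕ → ℕ := fun e => 2 * (X e + e) + (τ e).toNat with hg
  have htn : ∀ b : Bool, b.toNat ≤ 1 := fun b => by cases b <;> simp
  have hlt : ∀ e e', e < e' → e' < M → X e + e < X e' + e' := by
    intro e e' h1 h2
    have := hXmono e e' h1.le h2
    omega
  have hglt : ∀ e e', e < e' → e' < M → g e < g e' := by
    intro e e' h1 h2
    simp only [hg]
    have := hlt e e' h1 h2
    have := htn (τ e)
    omega
  have hinj : ∀ e < M, ∀ e' < M, g e = g e' → e = e' := by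
    intro e he e' he' hee
    rcases lt_trichotomy e e' with h1 | h1 | h1
    · have := hglt e e' h1 he'; omega
    · exact h1
    · have := hglt e' e h1 he; omega
  set N := (range M).sup (fun e => X e + e) with hN
  have hNe : ∀ e < M, X e + e ≤ N := fun e he =>
    le_sup (f := fun e => X e + e) (mem_range.2 he)
  obtain ⟨W, hW0, hW1, hW2, hinf⟩ := hrun (2 * N + 2) (fun i => 2 ^ (i / 2)) sB
    (fun i _ => fam_signed.pos i) (fun i _ j _ hij => fam_signed.ne i j hij) g
    (by
      intro e he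
      rw [← hM] at he
      have := hNe e he
      have := htn (τ e)
      simp only [hg]
      omega) (by rw [← hM]; exact hinj) (by
      intro p hp
      obtain ⟨r, hr⟩ := fam_signed.adm p hp
      exact ⟨r, fun e _ => hr _⟩)
  rw [← hM] at hW0
  set e : Fin (k + 1) ↪o ℕ := W.orderEmbOfFin hW1 with he
  have heW : ∀ j, e j ∈ W := fun j => W.orderEmbOfFin_mem hW1 j
  have heM : ∀ j, e j < M := fun j => hW0 _ (heW j)
  have hesurj : ∀ z ∈ W, ∃ j, e j = z := by
    intro z hz
    have : z ∈ Set.range e := by rw [he, range_orderEmbOfFin]; exact hz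
    exact this
  refine ⟨fun j => ⟨e j / K, hdiv _ (heM j)⟩, fun j => X (e j) + e j, ?_, ?_, ?_, ?_⟩
  · intro j j' hj
    rw [Fin.mk_lt_mk]
    have h1 : e j < e j' := e.strictMono hj
    rcases (Nat.div_le_div_right (c := K) h1.le).lt_or_eq with h2 | h2
    · exact h2
    · exact absurd (hW2 _ (heW j) _ (heW j') h2) h1.ne
  · intro j j' hj
    have h1 : e j < e j' := e.strictMono hj
    exact hlt _ _ h1 (heM j')
  · intro j
    have h2 := heM j
    rw [← hXe _ (heM j)]
    exact ⟨by simp, by simp only; omega⟩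
  · have hinj' : Set.InjOn (fun n : ℕ => n + 1) {n : ℕ | (∀ x ∈ W, ((fun i => 2 ^ (i / 2)) (g x) * n + sB (g x)).Prime) ∧
        (∀ i, (∃ a ∈ W, g a ≤ i) → (∃ b ∈ W, i ≤ g b) → ((fun i => 2 ^ (i / 2)) i * n + sB i).Prime →
          ∃ x ∈ W, i = g x) ∧
        ∀ i < 2 * N + 2, ((fun i => 2 ^ (i / 2)) i * n + sB i).Prime →
          ∃ x < (8 * k ^ 2 + 1) * K, i = g x} := by
      intro a _ b _ hab
      simpa using hab
    refine (hinf.image hinj').mono ?_
    rintro _ ⟨n, ⟨h1, h2, h3⟩, rfl⟩
    refine ⟨Nat.succ_pos n, ?_, ?_⟩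
    · intro j
      have h4 := h1 _ (heW j)
      beta_reduce at h4
      simp only [hg] at h4
      rw [term_eq] at h4
      rw [← hSe _ (heM j)]
      exact h4
    · intro l s hl1 hl2 hp
      beta_reduce at hl1 hl2
      rw [← term_eq] at hp
      have hlN : l ≤ N := hl2.trans (hNe _ (heM _))
      obtain ⟨z, hz, hzi⟩ := h3 (2 * l + s.toNat) (by have := htn s; omega) hp
      rw [← hM] at hz
      simp only [hg] at hzi
      have hlz : l = X z + z := by
        have := htn s
        have := htn (τ z)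
        omega
      have hsz : s = τ z := by
        have h5 : s.toNat = (τ z).toNat := by omega
        revert h5
        cases s <;> cases (τ z) <;> simp
      have hzW : z ∈ W := by
        have h6 : g (e 0) ≤ g z := by
          rcases lt_or_ge z (e 0) with h7 | h7
          · exfalso
            have := hlt _ _ h7 (heM 0)
            omega
          · rcases h7.lt_or_eq with h8 | h8
            · exact (hglt _ _ h8 hz).le
            · rw [h8]
        have h9 : g z ≤ g (e (Fin.last k)) := by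
          rcases lt_or_ge (e (Fin.last k)) z with h7 | h7
          · exfalso
            have := hlt _ _ h7 hz
            omega
          · rcases h7.lt_or_eq with h8 | h8
            · exact (hglt _ _ h8 (heM _)).le
            · rw [h8]
        have h10 : 2 * l + s.toNat = g z := by simp only [hg]; exact hzi
        rw [h10] at hp
        obtain ⟨z', hz', hzz⟩ := h2 (g z) ⟨_, heW 0, h6⟩ ⟨_, heW _, h9⟩ hp
        rw [hinj z hz z' (hW0 _ hz') hzz]
        exact hz'
      obtain ⟨j, rfl⟩ := hesurj z hzW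
      exact ⟨j, hlz, by rw [hsz, hSe _ (heM j)]⟩

end Pool.Agent.X37.RW
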